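import Pool.Agent.Helper22.WC.Defs
import Pool.Agent.Helper68.LW.SerLaw

/-!
# WC D4a (MP_fb29e9_nt): the limit law of the largest error for the random series, from the finite theorem
-/

open MeasureTheory Real Set Filter Topology unitInterval

set_option autoImplicit false

namespace Pool.Agent.Helper68.WC

open Pool.Agent.Helper22.AE
open Pool.Agent.Helper22.AC (cntc)
open Pool.Agent.Helper22.WC
open Pool.Agent.Helper92.LW (fjk cut)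
open Pool.Agent.Helper68.LW (fjk_cont fjk_supp)

theorem limS_meas
    (rat_limS : ∀ {H : ℝ → ℝ}, ContDiff ℝ 2 H → Function.Periodic H (2 * π) → (∀ θ, 0 < H θ + deriv (deriv H) θ) →
      ∀ {φ : ℝ → ℝ}, Continuous φ → (LimS H φ ↔
      (∀ n : ℕ, ∃ X₀ : ℕ, ∀ X Y : ℚ, ((X₀ : ℚ) + 1 ≤ X) → ((X₀ : ℚ) + 1 ≤ Y) →
      |(X : ℝ)⁻¹ * (∫ R in Icc (X : ℝ) (2 * X), φ (SupQ H R / sqrt R)) -
        (Y : ℝ)⁻¹ * (∫ R in Icc (Y : ℝ) (2 * Y), φ (SupQ H R / sqrt R))| ≤ 1 / ((n : ℝ) + 1))))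
    (lim_measS : ∀ {H₀ : ℝ → ℝ}, ContDiff ℝ 2 H₀ → Function.Periodic H₀ (2 * π) → ∀ {s : ℕ → ℝ},
      Summable (fun l : ℕ => (l : ℝ) ^ 2 * |s l|) → ∀ {X : ℝ}, 1 ≤ X → ∀ {φ : ℝ → ℝ}, Continuous φ →
      Measurable (fun x : ℕ → I × I => ∫ R in Icc X (2 * X), φ (SupQ (Hx H₀ s x) R / sqrt R)))
    {H₀ : ℝ → ℝ} (h0 : ContDiff ℝ 2 H₀) (hp : Function.Periodic H₀ (2 * π)) {s : ℕ → ℝ}
    (hs : Summable (fun l : ℕ => (l : ℝ) ^ 2 * |s l|)) {φ : ℝ → ℝ} (hφ : Continuous φ) :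
    MeasurableSet {x : ℕ → I × I | (∀ θ, 0 < Hx H₀ s x θ + deriv (deriv (Hx H₀ s x)) θ) → LimS (Hx H₀ s x) φ} := by
  have hS := Pool.Agent.Helper22.AD.rho_meas h0 hp hs
  have hB : MeasurableSet {x : ℕ → I × I | ∀ n : ℕ, ∃ X₀ : ℕ, ∀ X Y : ℚ, ((X₀ : ℚ) + 1 ≤ X) → ((X₀ : ℚ) + 1 ≤ Y) →
      |(X : ℝ)⁻¹ * (∫ R in Icc (X : ℝ) (2 * X), φ (SupQ (Hx H₀ s x) R / sqrt R)) -
        (Y : ℝ)⁻¹ * (∫ R in Icc (Y : ℝ) (2 * Y), φ (SupQ (Hx H₀ s x) R / sqrt R))| ≤ 1 / ((n : ℝ) + 1)} := by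
    have hset : {x : ℕ → I × I | ∀ n : ℕ, ∃ X₀ : ℕ, ∀ X Y : ℚ, ((X₀ : ℚ) + 1 ≤ X) → ((X₀ : ℚ) + 1 ≤ Y) →
      |(X : ℝ)⁻¹ * (∫ R in Icc (X : ℝ) (2 * X), φ (SupQ (Hx H₀ s x) R / sqrt R)) -
        (Y : ℝ)⁻¹ * (∫ R in Icc (Y : ℝ) (2 * Y), φ (SupQ (Hx H₀ s x) R / sqrt R))| ≤ 1 / ((n : ℝ) + 1)} =
        ⋂ n : ℕ, ⋃ X₀ : ℕ, ⋂ X : ℚ, ⋂ Y : ℚ, ⋂ _ : (X₀ : ℚ) + 1 ≤ X, ⋂ _ : (X₀ : ℚ) + 1 ≤ Y, {x : ℕ → I × I |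
        |(X : ℝ)⁻¹ * (∫ R in Icc (X : ℝ) (2 * X), φ (SupQ (Hx H₀ s x) R / sqrt R)) -
        (Y : ℝ)⁻¹ * (∫ R in Icc (Y : ℝ) (2 * Y), φ (SupQ (Hx H₀ s x) R / sqrt R))| ≤ 1 / ((n : ℝ) + 1)} := by
      ext x
      simp only [mem_ofPred_eq, mem_iUnion, mem_iInter]
    rw [hset]
    refine MeasurableSet.iInter fun n => MeasurableSet.iUnion fun X₀ => MeasurableSet.iInter fun X => MeasurableSet.iInter fun Y =>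
      MeasurableSet.iInter fun hX => MeasurableSet.iInter fun hY => ?_
    have h1 : ∀ Z : ℚ, ((X₀ : ℚ) + 1 ≤ Z) → (1 : ℝ) ≤ (Z : ℝ) := by
      intro Z hZ
      have h2 : (0 : ℚ) ≤ (X₀ : ℚ) := Nat.cast_nonneg X₀
      have h3 : (1 : ℚ) ≤ Z := by linarith
      exact_mod_cast h3
    refine measurableSet_le ?_ measurable_const
    refine continuous_abs.measurable.comp ?_
    exact ((lim_measS h0 hp hs (h1 X hX) hφ).const_mul _).sub ((lim_measS h0 hp hs (h1 Y hY) hφ).const_mul _)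
  have hset : {x : ℕ → I × I | (∀ θ, 0 < Hx H₀ s x θ + deriv (deriv (Hx H₀ s x)) θ) → LimS (Hx H₀ s x) φ} =
      {x : ℕ → I × I | ∀ θ, 0 < Hx H₀ s x θ + deriv (deriv (Hx H₀ s x)) θ}ᶜ ∪
      {x : ℕ → I × I | ∀ n : ℕ, ∃ X₀ : ℕ, ∀ X Y : ℚ, ((X₀ : ℚ) + 1 ≤ X) → ((X₀ : ℚ) + 1 ≤ Y) →
      |(X : ℝ)⁻¹ * (∫ R in Icc (X : ℝ) (2 * X), φ (SupQ (Hx H₀ s x) R / sqrt R)) -
        (Y : ℝ)⁻¹ * (∫ R in Icc (Y : ℝ) (2 * Y), φ (SupQ (Hx H₀ s x) R / sqrt R))| ≤ 1 / ((n : ℝ) + 1)} := by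
    ext x
    by_cases hx : ∀ θ, 0 < Hx H₀ s x θ + deriv (deriv (Hx H₀ s x)) θ
    · have h1 := rat_limS (Hx_smooth h0 hs x) (Hx_per hp s x) hx hφ
      constructor
      · intro h
        exact Or.inr (h1.1 (h hx))
      · rintro (h | h)
        · exact absurd hx h
        · exact fun _ => h1.2 h
    · constructor
      · intro _
        exact Or.inl hx
      · intro _ h
        exact absurd h hx
  rw [hset]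
  exact hS.compl.union hB

/-- D4a for one test function -/
theorem ser_law_S_one
    (fin : ∃ L₀ : ℕ, ∀ {L : ℕ}, L₀ ≤ L → ∀ {H₀ : ℝ → ℝ}, ContDiff ℝ 2 H₀ → Function.Periodic H₀ (2 * π) →
      ∀ᵐ w : (Fin L → ℝ) × (Fin L → ℝ), (∀ θ, 0 < Hw H₀ w θ + deriv (deriv (Hw H₀ w)) θ) →
        ∀ φ : ℝ → ℝ, Continuous φ → HasCompactSupport φ → LimS (Hw H₀ w) φ)
    (meas : ∀ {H₀ : ℝ → ℝ}, ContDiff ℝ 2 H₀ → Function.Periodic H₀ (2 * π) → ∀ {s : ℕ → ℝ},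
      Summable (fun l : ℕ => (l : ℝ) ^ 2 * |s l|) → ∀ {φ : ℝ → ℝ}, Continuous φ →
      MeasurableSet {x : ℕ → I × I | (∀ θ, 0 < Hx H₀ s x θ + deriv (deriv (Hx H₀ s x)) θ) → LimS (Hx H₀ s x) φ})
    {H₀ : ℝ → ℝ} (h0 : ContDiff ℝ 2 H₀) (hp : Function.Periodic H₀ (2 * π)) {s : ℕ → ℝ}
    (hs : Summable (fun l : ℕ => (l : ℝ) ^ 2 * |s l|)) (hs0 : ∀ l, s l ≠ 0) {φ : ℝ → ℝ} (hφ : Continuous φ) (hc : HasCompactSupport φ) :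
    ∀ᵐ x ∂(Measure.infinitePi fun _ : ℕ => (volume : Measure (I × I))),
      (∀ θ, 0 < Hx H₀ s x θ + deriv (deriv (Hx H₀ s x)) θ) → LimS (Hx H₀ s x) φ := by
  obtain ⟨L, hL⟩ := fin
  refine ae_cmb L (meas h0 hp hs hφ) ?_
  intro t
  obtain ⟨H₁, h1, h1p, hH⟩ := Hx_cmb h0 hp hs L t
  have hm := hL (L := L) le_rfl h1 h1p
  have hm' : ∀ᵐ w : (Fin L → ℝ) × (Fin L → ℝ), (∀ θ, 0 < Hw H₁ w θ + deriv (deriv (Hw H₁ w)) θ) → LimS (Hw H₁ w) φ := by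
    filter_upwards [hm] with w hw h
    exact hw h φ hφ hc
  have hh := head_ae (s := fun l : Fin L => s l) (fun l => hs0 l) hm'
  filter_upwards [hh] with q hq
  show (∀ θ, 0 < Hx H₀ s (cmb L q t) θ + deriv (deriv (Hx H₀ s (cmb L q t))) θ) → _
  rw [hH q]
  exact hq

/-- D4a, from the measurability of the set of series with the limit property -/
theorem ser_law_S_meas
    (fin : ∃ L₀ : ℕ, ∀ {L : ℕ}, L₀ ≤ L → ∀ {H₀ : ℝ → ℝ}, ContDiff ℝ 2 H₀ → Function.Periodic H₀ (2 * π) →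
      ∀ᵐ w : (Fin L → ℝ) × (Fin L → ℝ), (∀ θ, 0 < Hw H₀ w θ + deriv (deriv (Hw H₀ w)) θ) →
        ∀ φ : ℝ → ℝ, Continuous φ → HasCompactSupport φ → LimS (Hw H₀ w) φ)
    (meas : ∀ {H₀ : ℝ → ℝ}, ContDiff ℝ 2 H₀ → Function.Periodic H₀ (2 * π) → ∀ {s : ℕ → ℝ},
      Summable (fun l : ℕ => (l : ℝ) ^ 2 * |s l|) → ∀ {φ : ℝ → ℝ}, Continuous φ →
      MeasurableSet {x : ℕ → I × I | (∀ θ, 0 < Hx H₀ s x θ + deriv (deriv (Hx H₀ s x)) θ) → LimS (Hx H₀ s x) φ})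
    {H₀ : ℝ → ℝ} (h0 : ContDiff ℝ 2 H₀) (hp : Function.Periodic H₀ (2 * π)) {s : ℕ → ℝ}
    (hs : Summable (fun l : ℕ => (l : ℝ) ^ 2 * |s l|)) (hs0 : ∀ l, s l ≠ 0) :
    ∀ᵐ x ∂(Measure.infinitePi fun _ : ℕ => (volume : Measure (I × I))),
      (∀ θ, 0 < Hx H₀ s x θ + deriv (deriv (Hx H₀ s x)) θ) → ∀ j K : ℕ, LimS (Hx H₀ s x) (fjk j K) := by
  have hall : ∀ᵐ x ∂(Measure.infinitePi fun _ : ℕ => (volume : Measure (I × I))), ∀ j K : ℕ,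
      (∀ θ, 0 < Hx H₀ s x θ + deriv (deriv (Hx H₀ s x)) θ) → LimS (Hx H₀ s x) (fjk j K) := by
    rw [ae_all_iff]
    intro j
    rw [ae_all_iff]
    intro K
    exact ser_law_S_one fin meas h0 hp hs hs0 (fjk_cont j K) (fjk_supp j K)
  filter_upwards [hall] with x hx h j K
  exact hx j K h

/-- D4a -/
theorem ser_law_S_of
    (rat_limS : ∀ {H : ℝ → ℝ}, ContDiff ℝ 2 H → Function.Periodic H (2 * π) → (∀ θ, 0 < H θ + deriv (deriv H) θ) →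
      ∀ {φ : ℝ → ℝ}, Continuous φ → (LimS H φ ↔
      (∀ n : ℕ, ∃ X₀ : ℕ, ∀ X Y : ℚ, ((X₀ : ℚ) + 1 ≤ X) → ((X₀ : ℚ) + 1 ≤ Y) →
      |(X : ℝ)⁻¹ * (∫ R in Icc (X : ℝ) (2 * X), φ (SupQ H R / sqrt R)) -
        (Y : ℝ)⁻¹ * (∫ R in Icc (Y : ℝ) (2 * Y), φ (SupQ H R / sqrt R))| ≤ 1 / ((n : ℝ) + 1))))
    (lim_measS : ∀ {H₀ : ℝ → ℝ}, ContDiff ℝ 2 H₀ → Function.Periodic H₀ (2 * π) → ∀ {s : ℕ → ℝ},
      Summable (fun l : ℕ => (l : ℝ) ^ 2 * |s l|) → ∀ {X : ℝ}, 1 ≤ X → ∀ {φ : ℝ → ℝ}, Continuous φ →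
      Measurable (fun x : ℕ → I × I => ∫ R in Icc X (2 * X), φ (SupQ (Hx H₀ s x) R / sqrt R)))
    (fin : ∃ L₀ : ℕ, ∀ {L : ℕ}, L₀ ≤ L → ∀ {H₀ : ℝ → ℝ}, ContDiff ℝ 2 H₀ → Function.Periodic H₀ (2 * π) →
      ∀ᵐ w : (Fin L → ℝ) × (Fin L → ℝ), (∀ θ, 0 < Hw H₀ w θ + deriv (deriv (Hw H₀ w)) θ) →
        ∀ φ : ℝ → ℝ, Continuous φ → HasCompactSupport φ → LimS (Hw H₀ w) φ)
    {H₀ : ℝ → ℝ} (h0 : ContDiff ℝ 2 H₀) (hp : Function.Periodic H₀ (2 * π)) {s : ℕ → ℝ}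
    (hs : Summable (fun l : ℕ => (l : ℝ) ^ 2 * |s l|)) (hs0 : ∀ l, s l ≠ 0) :
    ∀ᵐ x ∂(Measure.infinitePi fun _ : ℕ => (volume : Measure (I × I))),
      (∀ θ, 0 < Hx H₀ s x θ + deriv (deriv (Hx H₀ s x)) θ) → ∀ j K : ℕ, LimS (Hx H₀ s x) (fjk j K) :=
  ser_law_S_meas fin (limS_meas rat_limS lim_measS) h0 hp hs hs0

end Pool.Agent.Helper68.WC
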