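import Pool.Agent.Helper68.WC.Thr

/-!
# Client's strategy (MP_f3ca85_co)

`m = q + 1`. A vertex is active if its degree in Client's graph is less than `k`, and dead if it is active and has at most
`L` free edges. Client takes an edge without active ends if there is one; otherwise an edge which avoids the dead vertices, if
possible with only one active end; otherwise an edge with exactly one dead end.
-/

set_option autoImplicit false

namespace Pool.Agent.Helper68.WC

open Finset

variable {n : ℕ}

/-- The number of edges of `F` which touch `X`. -/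
def tch (F : Finset (Sym2 (Fin n))) (X : Finset (Fin n)) : ℕ := (F.filter fun e => ∃ v ∈ X, v ∈ e).card

theorem tch_sdiff {F O : Finset (Sym2 (Fin n))} (h : O ⊆ F) (X : Finset (Fin n)) : tch (F \ O) X + tch O X = tch F X := by
  rw [tch, tch, tch, ← Finset.card_union_of_disjoint, ← Finset.filter_union, Finset.sdiff_union_of_subset h]
  exact Finset.disjoint_filter_filter Finset.sdiff_disjoint

theorem tch_all {O : Finset (Sym2 (Fin n))} {X : Finset (Fin n)} (h : ∀ e ∈ O, ∃ v ∈ X, v ∈ e) : tch O X = O.card := by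
  rw [tch, Finset.filter_true_of_mem h]

theorem tch_mono {F : Finset (Sym2 (Fin n))} {X Y : Finset (Fin n)} (h : X ⊆ Y) : tch F X ≤ tch F Y := by
  apply Finset.card_le_card
  intro e he
  rw [mem_filter] at he ⊢
  obtain ⟨v, hv, hve⟩ := he.2
  exact ⟨he.1, v, h hv, hve⟩

theorem tch_le_sum (F : Finset (Sym2 (Fin n))) (X : Finset (Fin n)) : tch F X ≤ ∑ v ∈ X, dg F v := by
  have h : (F.filter fun e => ∃ v ∈ X, v ∈ e) = X.biUnion fun v => F.filter (v ∈ ·) := by
    ext e
    rw [mem_filter, mem_biUnion]
    constructor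
    · rintro ⟨he, v, hv, hve⟩
      exact ⟨v, hv, mem_filter.2 ⟨he, hve⟩⟩
    · rintro ⟨v, hv, he⟩
      have := mem_filter.1 he
      exact ⟨this.1, v, hv, this.2⟩
  rw [tch, h]
  exact Finset.card_biUnion_le

theorem tch_union_le (F : Finset (Sym2 (Fin n))) (X Y : Finset (Fin n)) : tch F (X ∪ Y) ≤ tch F X + tch F Y := by
  have h : (F.filter fun e => ∃ v ∈ X ∪ Y, v ∈ e) ⊆
      (F.filter fun e => ∃ v ∈ X, v ∈ e) ∪ (F.filter fun e => ∃ v ∈ Y, v ∈ e) := by
    intro e he
    rw [mem_filter] at he
    obtain ⟨he, v, hv, hve⟩ := he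
    rw [mem_union, mem_filter, mem_filter]
    rcases mem_union.1 hv with h | h
    · exact Or.inl ⟨he, v, h, hve⟩
    · exact Or.inr ⟨he, v, h, hve⟩
  exact (Finset.card_le_card h).trans (Finset.card_union_le _ _)

theorem dg_insert {C : Finset (Sym2 (Fin n))} {e : Sym2 (Fin n)} (he : e ∉ C) (v : Fin n) :
    dg (insert e C) v = dg C v + if v ∈ e then 1 else 0 := by
  rw [dg, Finset.filter_insert]
  split_ifs with h
  · rw [Finset.card_insert_of_notMem]
    · rfl
    · intro hc
      exact he (mem_filter.1 hc).1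
  · rfl

theorem dg_insert_le (C : Finset (Sym2 (Fin n))) (e : Sym2 (Fin n)) (v : Fin n) :
    dg (insert e C) v ≤ dg C v + if v ∈ e then 1 else 0 := by
  by_cases he : e ∈ C
  · rw [Finset.insert_eq_of_mem he]
    exact Nat.le_add_right _ _
  · exact (dg_insert he v).le

/-- The missing degrees in `X`. -/
def sdf (k : ℕ) (C : Finset (Sym2 (Fin n))) (X : Finset (Fin n)) : ℕ := ∑ v ∈ X, (k - dg C v)

theorem sdf_insert_le (k : ℕ) (C : Finset (Sym2 (Fin n))) (e : Sym2 (Fin n)) (X : Finset (Fin n)) :
    sdf k C X ≤ sdf k (insert e C) X + (X.filter (· ∈ e)).card := by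
  rw [sdf, sdf, Finset.card_filter, ← Finset.sum_add_distrib]
  refine Finset.sum_le_sum fun v _ => ?_
  have := dg_insert_le C e v
  omega

/-- Non-diagonal edges with both ends in `X`. -/
theorem exists_one_end {m : ℕ} {X : Finset (Fin n)} (hX : X.card.choose 2 < m) {O : Finset (Sym2 (Fin n))} (hO : O.card = m)
    (ht : ∀ e ∈ O, ∃ v ∈ X, v ∈ e) : ∃ e ∈ O, (X.filter (· ∈ e)).card = 1 := by
  by_contra hcon
  push Not at hcon
  have h2 : ∀ e ∈ O, (X.filter (· ∈ e)).card = 2 := by
    intro e he
    have h3 := card_ends_le X e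
    have h4 : (X.filter (· ∈ e)).card ≠ 0 := by
      obtain ⟨v, hv, hve⟩ := ht e he
      exact Finset.card_ne_zero.2 ⟨v, mem_filter.2 ⟨hv, hve⟩⟩
    have h5 := hcon e he
    omega
  have h3 : O.card ≤ (X.powersetCard 2).card := by
    apply Finset.card_le_card_of_injOn (fun e => X.filter (· ∈ e))
    · intro e he
      exact Finset.mem_coe.2 (Finset.mem_powersetCard.2 ⟨Finset.filter_subset _ _, h2 e he⟩)
    · intro e he e' he' hee
      have hee' : X.filter (· ∈ e) = X.filter (· ∈ e') := hee
      obtain ⟨x, y, hxy, hxy'⟩ := Finset.card_eq_two.1 (h2 e he)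
      have hx : x ∈ X.filter (· ∈ e) := by rw [hxy']; simp
      have hy : y ∈ X.filter (· ∈ e) := by rw [hxy']; simp
      have e1 : e = s(x, y) := ((Sym2.mem_and_mem_iff hxy).1 ⟨(mem_filter.1 hx).2, (mem_filter.1 hy).2⟩)
      rw [hee'] at hx hy
      have e2 : e' = s(x, y) := ((Sym2.mem_and_mem_iff hxy).1 ⟨(mem_filter.1 hx).2, (mem_filter.1 hy).2⟩)
      rw [e1, e2]
  rw [Finset.card_powersetCard, hO] at h3
  omega

/-- Client protects a set of vertices. -/
theorem client_protect {q k : ℕ} {X : Finset (Fin n)} (hX : X.card.choose 2 < q + 1) {C F : Finset (Sym2 (Fin n))}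
    (hW : WWin q (MinDeg k) C F) : (q + 1) * sdf k C X ≤ tch F X + 2 * (q + 1) := by
  induction hW with
  | claimed C hC =>
    have : sdf k C X = 0 := Finset.sum_eq_zero fun v _ => by
      have := hC v
      omega
    rw [this]
    omega
  | last C F hne hlt hF =>
    obtain ⟨e, he⟩ := hne
    have h1 := sdf_insert_le k C e X
    have h2 := card_ends_le X e
    have h3 : sdf k (insert e C) X = 0 := Finset.sum_eq_zero fun v _ => by
      have := hF e he v
      omega
    have h4 : sdf k C X ≤ 2 := by omega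
    calc (q + 1) * sdf k C X ≤ (q + 1) * 2 := Nat.mul_le_mul_left _ h4
      _ ≤ _ := by omega
  | round C F O hO hOc _ ih =>
    have h0 := tch_sdiff hO X
    by_cases h : ∃ e ∈ O, ∀ v ∈ X, v ∉ e
    · obtain ⟨e, he, hev⟩ := h
      have h1 := ih e he
      have h2 := sdf_insert_le k C e X
      have h3 : (X.filter (· ∈ e)).card = 0 := by
        rw [Finset.card_eq_zero, Finset.filter_eq_empty_iff]
        exact fun v hv => hev v hv
      rw [h3, Nat.add_zero] at h2
      have h4 := Nat.mul_le_mul_left (q + 1) h2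
      omega
    · push Not at h
      obtain ⟨e, he, he1⟩ := exists_one_end hX hOc h
      have h1 := ih e he
      have h2 := sdf_insert_le k C e X
      rw [he1] at h2
      have h3 := tch_all h
      have h4 := Nat.mul_le_mul_left (q + 1) h2
      rw [Nat.mul_add] at h4
      omega

end Pool.Agent.Helper68.WC
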