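import Pool.Agent.Helper68.WC.Client

/-!
# Client's strategy: the potential (MP_f3ca85_co)
-/

set_option autoImplicit false

namespace Pool.Agent.Helper68.WC

open Finset

variable {n : ℕ}

/-- The vertices which are active and have at most `L` free edges. -/
def dead (k L : ℕ) (C F : Finset (Sym2 (Fin n))) : Finset (Fin n) := univ.filter fun v => dg C v < k ∧ dg F v ≤ L

theorem mem_dead {k L : ℕ} {C F : Finset (Sym2 (Fin n))} {v : Fin n} : v ∈ dead k L C F ↔ dg C v < k ∧ dg F v ≤ L := by
  rw [dead, mem_filter]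
  exact ⟨fun h => h.2, fun h => ⟨mem_univ _, h⟩⟩

theorem dead_subset {k L : ℕ} {C F : Finset (Sym2 (Fin n))} : dead k L C F ⊆ act k C := fun _ hv =>
  mem_act.2 (mem_dead.1 hv).1

theorem sdf_mono {k : ℕ} {C : Finset (Sym2 (Fin n))} {X Y : Finset (Fin n)} (h : X ⊆ Y) : sdf k C X ≤ sdf k C Y :=
  Finset.sum_le_sum_of_subset h

/-- All missing degrees. -/
theorem sdf_act (k : ℕ) (C : Finset (Sym2 (Fin n))) : sdf k C (act k C) = sdf k C univ := by
  refine Finset.sum_subset (Finset.subset_univ _) fun v _ hv => ?_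
  rw [mem_act] at hv
  omega

theorem card_act_le (k : ℕ) (C : Finset (Sym2 (Fin n))) (X : Finset (Fin n)) (hX : X ⊆ act k C) : X.card ≤ sdf k C X := by
  calc X.card = ∑ _v ∈ X, 1 := by rw [Finset.sum_const, smul_eq_mul, mul_one]
    _ ≤ _ := Finset.sum_le_sum fun v hv => by
      have := mem_act.1 (hX hv)
      omega

/-- There are few dead vertices when Waiter wins. -/
theorem card_dead_le {q k L d : ℕ} (h2 : L * (d + 1) + 2 * (q + 1) < (q + 1) * (d + 1)) (h3 : (d + 1).choose 2 < q + 1)
    {C F : Finset (Sym2 (Fin n))} (hW : WWin q (MinDeg k) C F) : (dead k L C F).card ≤ d := by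
  by_contra hcon
  obtain ⟨X, hX, hXc⟩ := Finset.exists_subset_card_eq (n := d + 1) (s := dead k L C F) (by omega)
  have h4 := client_protect (X := X) (by rw [hXc]; exact h3) hW
  have h5 := card_act_le k C X (hX.trans dead_subset)
  have h6 := tch_le_sum F X
  have h7 : ∑ v ∈ X, dg F v ≤ ∑ _v ∈ X, L := Finset.sum_le_sum fun v hv => (mem_dead.1 (hX hv)).2
  rw [Finset.sum_const, smul_eq_mul, hXc] at h7
  rw [hXc] at h5
  have h8 := Nat.mul_le_mul_left (q + 1) h5
  have h9 : (d + 1) * L = L * (d + 1) := Nat.mul_comm _ _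
  omega

/-- The part of the potential which belongs to the waste of the completed vertices. -/
def gam (m L u : ℕ) : ℕ := ∑ i ∈ range u, min m (2 * (L - i))

theorem gam_succ (m L u : ℕ) : gam m L (u + 1) = gam m L u + min m (2 * (L - u)) := Finset.sum_range_succ _ _

theorem gam_le (m L : ℕ) {u u' : ℕ} (h : u' ≤ u) : gam m L u ≤ gam m L u' + m * (u - u') := by
  obtain ⟨d, rfl⟩ := Nat.exists_eq_add_of_le h
  clear h
  rw [Nat.add_sub_cancel_left]
  induction d with
  | zero => simp
  | succ d ih =>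
    rw [← Nat.add_assoc, gam_succ]
    have h1 : min m (2 * (L - (u' + d))) ≤ m := min_le_left _ _
    have h2 : m * (d + 1) = m * d + m := by ring
    omega

theorem gam_le' (m L : ℕ) {u u' : ℕ} (h : u' ≤ u) (h2 : u ≤ u' + 2) :
    gam m L u ≤ gam m L u' + 2 * ((u - u') * (L + 2 - u)) := by
  have h3 : u = u' ∨ u = u' + 1 ∨ u = u' + 2 := by omega
  rcases h3 with rfl | rfl | rfl
  · simp
  · rw [gam_succ, Nat.add_sub_cancel_left, Nat.one_mul]
    have h4 : min m (2 * (L - u')) ≤ 2 * (L - u') := min_le_right _ _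
    omega
  · rw [gam_succ, gam_succ, Nat.add_sub_cancel_left]
    have h4 : min m (2 * (L - u')) ≤ 2 * (L - u') := min_le_right _ _
    have h5 : min m (2 * (L - (u' + 1))) ≤ 2 * (L - (u' + 1)) := min_le_right _ _
    have h6 : 2 * (2 * (L + 2 - (u' + 2))) = 4 * (L - u') := by
      have : L + 2 - (u' + 2) = L - u' := by omega
      rw [this]
      ring
    omega

theorem four_gam_ge (m L : ℕ) : 4 * L * m ≤ 4 * gam m L L + m ^ 2 := by
  -- reversed sum
  have h1 : gam m L L = ∑ j ∈ range L, min m (2 * (j + 1)) := by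
    rw [gam, ← Finset.sum_range_reflect]
    refine Finset.sum_congr rfl fun i hi => ?_
    rw [mem_range] at hi
    congr 2
    omega
  rw [h1]
  have h2 : ∀ L : ℕ, 2 * L ≤ m → ∑ j ∈ range L, min m (2 * (j + 1)) = L * (L + 1) := by
    intro L
    induction L with
    | zero => intro _; rfl
    | succ L ih =>
      intro h
      rw [Finset.sum_range_succ, ih (by omega), min_eq_right (by omega)]
      ring
  induction L with
  | zero => simp
  | succ L ih =>
    have ih' := ih (by
      rw [gam, ← Finset.sum_range_reflect]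
      refine Finset.sum_congr rfl fun i hi => ?_
      rw [mem_range] at hi
      congr 2
      omega)
    by_cases hL : m ≤ 2 * (L + 1)
    · rw [Finset.sum_range_succ, min_eq_left hL]
      have : 4 * (L + 1) * m = 4 * L * m + 4 * m := by ring
      omega
    · rw [h2 (L + 1) (by omega)]
      have h3 : (m : ℤ) ^ 2 + 4 * ((L + 1) * (L + 1 + 1)) - 4 * (L + 1) * m = (m - 2 * (L + 1)) ^ 2 + 4 * (L + 1) := by ring
      have h4 : (0 : ℤ) ≤ (m - 2 * (L + 1)) ^ 2 + 4 * (L + 1) := by positivity
      have h5 : (4 : ℤ) * (L + 1) * m ≤ 4 * ((L + 1) * (L + 1 + 1)) + m ^ 2 := by linarith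
      exact_mod_cast h5

/-- The free edges at `x` whose other end is not in `U`. -/
def outE (F : Finset (Sym2 (Fin n))) (U : Finset (Fin n)) (x : Fin n) : Finset (Sym2 (Fin n)) :=
  F.filter fun e => x ∈ e ∧ ∀ v ∈ U, v ∈ e → v = x

theorem card_outE (F : Finset (Sym2 (Fin n))) {U : Finset (Fin n)} {x : Fin n} (hx : x ∈ U) :
    dg F x + 1 ≤ (outE F U x).card + U.card := by
  have h1 : (F.filter fun e => x ∈ e) ⊆ outE F U x ∪ star x (U.erase x) := by
    intro e he
    rw [mem_filter] at he
    rw [mem_union, outE, mem_filter, mem_star]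
    by_cases h : ∀ v ∈ U, v ∈ e → v = x
    · exact Or.inl ⟨he.1, he.2, h⟩
    · push Not at h
      obtain ⟨v, hv, hve, hvx⟩ := h
      exact Or.inr ⟨v, mem_erase.2 ⟨hvx, hv⟩, ((Sym2.mem_and_mem_iff (Ne.symm hvx)).1 ⟨he.2, hve⟩).symm⟩
  have h2 := (Finset.card_le_card h1).trans (Finset.card_union_le _ _)
  rw [card_star, Finset.card_erase_of_mem hx] at h2
  have h3 : 1 ≤ U.card := Finset.card_pos.2 ⟨x, hx⟩
  rw [dg]
  omega

/-- The waste of the completed vertices. -/
theorem tch_waste (F : Finset (Sym2 (Fin n))) {U U' : Finset (Fin n)} (hU : U' ⊆ U) :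
    tch F U' + ∑ x ∈ U \ U', (outE F U x).card ≤ tch F U := by
  have h1 : ((U \ U').biUnion fun x => outE F U x).card = ∑ x ∈ U \ U', (outE F U x).card := by
    refine Finset.card_biUnion fun x hx y hy hxy => ?_
    show Disjoint (outE F U x) (outE F U y)
    rw [Finset.disjoint_left]
    intro e he he'
    rw [outE, mem_filter] at he he'
    exact hxy (he'.2.2 x (mem_sdiff.1 hx).1 he.2.1)
  have h2 : Disjoint (F.filter fun e => ∃ v ∈ U', v ∈ e) ((U \ U').biUnion fun x => outE F U x) := by
    rw [Finset.disjoint_left]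
    intro e he he'
    obtain ⟨v, hv, hve⟩ := (mem_filter.1 he).2
    obtain ⟨x, hx, hex⟩ := mem_biUnion.1 he'
    rw [outE, mem_filter] at hex
    have := hex.2.2 v (hU hv) hve
    rw [this] at hv
    exact (mem_sdiff.1 hx).2 hv
  rw [← h1, tch, tch, ← Finset.card_union_of_disjoint h2]
  apply Finset.card_le_card
  intro e he
  rcases mem_union.1 he with h | h
  · obtain ⟨h3, v, hv, hve⟩ := mem_filter.1 h
    exact mem_filter.2 ⟨h3, v, hU hv, hve⟩
  · obtain ⟨x, hx, hex⟩ := mem_biUnion.1 h
    rw [outE, mem_filter] at hex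
    exact mem_filter.2 ⟨hex.1, x, (mem_sdiff.1 hx).1, hex.2.1⟩

theorem act_insert_subset (k : ℕ) (C : Finset (Sym2 (Fin n))) (e : Sym2 (Fin n)) : act k (insert e C) ⊆ act k C := by
  intro v hv
  rw [mem_act] at hv ⊢
  have := dg_mono (Finset.subset_insert e C) v
  omega

theorem act_sdiff_subset (k : ℕ) (C : Finset (Sym2 (Fin n))) (e : Sym2 (Fin n)) :
    act k C \ act k (insert e C) ⊆ (act k C).filter (· ∈ e) := by
  intro v hv
  rw [mem_sdiff, mem_act, mem_act] at hv
  rw [mem_filter, mem_act]
  refine ⟨hv.1, ?_⟩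
  by_contra h
  have := dg_insert_le C e v
  rw [if_neg h] at this
  omega

/-- The potential of the dead vertices. -/
def bpot (m k κ : ℕ) (C F : Finset (Sym2 (Fin n))) (D : Finset (Fin n)) : ℤ :=
  (κ : ℤ) * tch F D - (κ - 1) * (m * sdf k C D)

/-- New dead vertices only make the potential smaller. -/
theorem bpot_dead {m k κ L : ℕ} (hκ : 1 ≤ κ) (h1 : κ * L + m ≤ κ * m) (C F O : Finset (Sym2 (Fin n))) (e : Sym2 (Fin n)) :
    bpot m k κ (insert e C) (F \ O) (dead k L (insert e C) (F \ O)) ≤
      bpot m k κ (insert e C) (F \ O) (dead k L C F) := by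
  set C' := insert e C with hC'
  set F' := F \ O with hF'
  set D := dead k L C F with hD
  set D' := dead k L C' F' with hD'
  have h2 : tch F' D' ≤ tch F' D + L * (D' \ D).card := by
    have h3 : D' ⊆ D ∪ (D' \ D) := by
      intro v hv
      rw [mem_union, mem_sdiff]
      tauto
    have h4 := (tch_mono (F := F') h3).trans (tch_union_le F' D (D' \ D))
    have h5 := tch_le_sum F' (D' \ D)
    have h6 : ∑ v ∈ D' \ D, dg F' v ≤ ∑ _v ∈ D' \ D, L :=
      Finset.sum_le_sum fun v hv => (mem_dead.1 (mem_sdiff.1 hv).1).2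
    rw [Finset.sum_const, smul_eq_mul, Nat.mul_comm] at h6
    omega
  have h3 : sdf k C' D + (D' \ D).card ≤ sdf k C' D' := by
    have h4 : sdf k C' D' = sdf k C' (D' \ D) + sdf k C' (D' ∩ D) := by
      rw [sdf, sdf, sdf, Nat.add_comm]
      exact (Finset.sum_inter_add_sum_sdiff D' D _).symm
    have h5 := card_act_le k C' (D' \ D) (Finset.sdiff_subset.trans dead_subset)
    have h6 : sdf k C' D = sdf k C' (D' ∩ D) := by
      symm
      refine Finset.sum_subset Finset.inter_subset_right fun v hv hv' => ?_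
      rw [mem_inter, not_and'] at hv'
      have h7 := hv' hv
      rw [hD', mem_dead] at h7
      have h8 : dg F' v ≤ L := (dg_mono Finset.sdiff_subset v).trans (mem_dead.1 hv).2
      omega
    omega
  have h2' : (tch F' D' : ℤ) ≤ tch F' D + L * (D' \ D).card := by exact_mod_cast h2
  have h3' : (sdf k C' D : ℤ) + (D' \ D).card ≤ sdf k C' D' := by exact_mod_cast h3
  have h1' : (κ : ℤ) * L + m ≤ κ * m := by exact_mod_cast h1
  have hκ' : (0 : ℤ) ≤ κ - 1 := by
    have : (1 : ℤ) ≤ κ := by exact_mod_cast hκ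
    linarith
  rw [bpot, bpot]
  have h4 : (κ : ℤ) * tch F' D' ≤ κ * (tch F' D + L * (D' \ D).card) := mul_le_mul_of_nonneg_left h2' (by positivity)
  have h5 : ((κ : ℤ) - 1) * (m * (sdf k C' D + (D' \ D).card)) ≤ (κ - 1) * (m * sdf k C' D') :=
    mul_le_mul_of_nonneg_left (mul_le_mul_of_nonneg_left h3' (by positivity)) hκ'
  have h6 : (0 : ℤ) ≤ (κ * m - (κ * L + m)) * (D' \ D).card := mul_nonneg (by linarith) (by positivity)
  nlinarith [h4, h5, h6]

/-- The potential of Client. -/
def cpot (m k κ d L : ℕ) (C F : Finset (Sym2 (Fin n))) : ℤ :=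
  2 * tch F (act k C) + 2 * (κ * (m * (k * d)) + bpot m k κ C F (dead k L C F)) - m * sdf k C univ - gam m L (act k C).card

theorem bpot_nonneg {m k κ d : ℕ} (hκ : 1 ≤ κ) {C F : Finset (Sym2 (Fin n))} {D : Finset (Fin n)} (hD : D.card ≤ d) :
    0 ≤ (κ : ℤ) * (m * (k * d)) + bpot m k κ C F D := by
  have h1 : sdf k C D ≤ k * d := by
    calc sdf k C D ≤ ∑ _v ∈ D, k := Finset.sum_le_sum fun v _ => Nat.sub_le _ _
      _ = D.card * k := by rw [Finset.sum_const, smul_eq_mul]
      _ ≤ d * k := Nat.mul_le_mul_right _ hD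
      _ = k * d := Nat.mul_comm _ _
  have h1' : (sdf k C D : ℤ) ≤ k * d := by exact_mod_cast h1
  have hκ' : (0 : ℤ) ≤ κ - 1 := by
    have : (1 : ℤ) ≤ κ := by exact_mod_cast hκ
    linarith
  have h2 : ((κ : ℤ) - 1) * (m * sdf k C D) ≤ (κ - 1) * (m * (k * d)) :=
    mul_le_mul_of_nonneg_left (mul_le_mul_of_nonneg_left h1' (by positivity)) hκ'
  have h3 : (0 : ℤ) ≤ m * (k * d) := by positivity
  have h4 : (0 : ℤ) ≤ κ * tch F D := by positivity
  rw [bpot]
  nlinarith

/-- One round. -/
theorem cpot_round {m k κ d L : ℕ} (hκ : 1 ≤ κ) (h1 : κ * L + m ≤ κ * m) (h3 : (d + 1).choose 2 < m)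
    {C F O : Finset (Sym2 (Fin n))} (hO : O ⊆ F) (hOc : O.card = m) (hD : (dead k L C F).card ≤ d) :
    ∃ e ∈ O, cpot m k κ d L (insert e C) (F \ O) ≤ cpot m k κ d L C F := by
  set U := act k C with hU
  set D := dead k L C F with hDdef
  -- the general estimate
  have key : ∀ e ∈ O, ∀ a b w : ℕ, (U.filter (· ∈ e)).card ≤ a → (D.filter (· ∈ e)).card ≤ b →
      tch (F \ O) (act k (insert e C)) + w ≤ tch (F \ O) U →
      (m : ℤ) * a + gam m L U.card - gam m L (act k (insert e C)).card + 2 * ((κ - 1) * (m * b)) ≤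
        2 * tch O U + 2 * w + 2 * (κ * tch O D) →
      cpot m k κ d L (insert e C) (F \ O) ≤ cpot m k κ d L C F := by
    intro e _ a b w ha hb hw hgam
    have e1 := bpot_dead (k := k) (L := L) hκ h1 C F O e
    have e2 := tch_sdiff hO U
    have e3 := tch_sdiff hO D
    have e4 := sdf_insert_le k C e U
    have e5 := sdf_insert_le k C e D
    have e6 : sdf k C U = sdf k C univ := sdf_act k C
    have e7 : sdf k (insert e C) U ≤ sdf k (insert e C) univ := sdf_mono (Finset.subset_univ _)
    have e2' : (tch (F \ O) U : ℤ) + tch O U = tch F U := by exact_mod_cast e2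
    have e3' : (tch (F \ O) D : ℤ) + tch O D = tch F D := by exact_mod_cast e3
    have e8 : (sdf k C univ : ℤ) ≤ sdf k (insert e C) univ + a := by
      have : sdf k C univ ≤ sdf k (insert e C) univ + a := by omega
      exact_mod_cast this
    have e9 : (sdf k C D : ℤ) ≤ sdf k (insert e C) D + b := by
      have : sdf k C D ≤ sdf k (insert e C) D + b := by omega
      exact_mod_cast this
    have hw' : (tch (F \ O) (act k (insert e C)) : ℤ) + w ≤ tch (F \ O) U := by exact_mod_cast hw
    have hκ' : (0 : ℤ) ≤ κ - 1 := by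
      have : (1 : ℤ) ≤ κ := by exact_mod_cast hκ
      linarith
    have e10 : ((κ : ℤ) - 1) * (m * sdf k C D) ≤ (κ - 1) * (m * (sdf k (insert e C) D + b)) :=
      mul_le_mul_of_nonneg_left (mul_le_mul_of_nonneg_left e9 (by positivity)) hκ'
    have e11 : (m : ℤ) * sdf k C univ ≤ m * (sdf k (insert e C) univ + a) := mul_le_mul_of_nonneg_left e8 (by positivity)
    have e12 : (κ : ℤ) * (tch (F \ O) D + tch O D) = κ * tch F D := by rw [e3']
    rw [← hDdef] at e1
    simp only [bpot] at e1
    simp only [cpot, bpot, ← hU, ← hDdef]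
    linarith [e1, e2', e10, e11, e12, hw', hgam, show ((κ : ℤ) - 1) * (m * (sdf k (insert e C) D + b)) =
      (κ - 1) * (m * sdf k (insert e C) D) + (κ - 1) * (m * b) by ring, show (m : ℤ) * (sdf k (insert e C) univ + a) =
      m * sdf k (insert e C) univ + m * a by ring, show (κ : ℤ) * (tch (F \ O) D + tch O D) =
      κ * tch (F \ O) D + κ * tch O D by ring]
  have hsub : ∀ e, act k (insert e C) ⊆ U := fun e => act_insert_subset k C e
  have hcardU : ∀ e, U.card ≤ (act k (insert e C)).card + (U.filter (· ∈ e)).card := by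
    intro e
    have h4 := Finset.card_le_card (act_sdiff_subset k C e)
    have h5 := Finset.card_sdiff_add_card_eq_card (hsub e)
    rw [← hU] at h4
    omega
  have htO : (0 : ℤ) ≤ κ * tch O D := by positivity
  by_cases c1 : ∃ e ∈ O, ∀ v ∈ U, v ∉ e
  · -- an edge without active ends
    obtain ⟨e, he, heU⟩ := c1
    refine ⟨e, he, ?_⟩
    have h4 : (U.filter (· ∈ e)).card = 0 := by
      rw [Finset.card_eq_zero, Finset.filter_eq_empty_iff]
      exact fun v hv => heU v hv
    have h5 : (D.filter (· ∈ e)).card = 0 := by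
      rw [Finset.card_eq_zero, Finset.filter_eq_empty_iff]
      exact fun v hv => heU v (dead_subset hv)
    have h6 : (act k (insert e C)).card = U.card := by
      have h7 := hcardU e
      have h8 := Finset.card_le_card (hsub e)
      omega
    refine key e he 0 0 0 h4.le h5.le (tch_mono (hsub e)) ?_
    rw [h6]
    have : (0 : ℤ) ≤ tch O U := by positivity
    push_cast
    linarith
  push Not at c1
  have htU : tch O U = m := by rw [tch_all c1, hOc]
  by_cases c2 : ∃ e ∈ O, (U.filter (· ∈ e)).card = 1 ∧ ∀ v ∈ D, v ∉ e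
  · obtain ⟨e, he, he1, heD⟩ := c2
    refine ⟨e, he, ?_⟩
    have h5 : (D.filter (· ∈ e)).card = 0 := by
      rw [Finset.card_eq_zero, Finset.filter_eq_empty_iff]
      exact fun v hv => heD v hv
    refine key e he 1 0 0 he1.le h5.le (tch_mono (hsub e)) ?_
    rw [htU]
    have h6 := gam_le m L (Finset.card_le_card (hsub e))
    have h7 := hcardU e
    have h8 : m * (U.card - (act k (insert e C)).card) ≤ m * 1 := Nat.mul_le_mul_left _ (by omega)
    have h9 : gam m L U.card ≤ gam m L (act k (insert e C)).card + m := by omega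
    have h9' : (gam m L U.card : ℤ) ≤ gam m L (act k (insert e C)).card + m := by exact_mod_cast h9
    push_cast
    linarith
  by_cases c3 : ∃ e ∈ O, ∀ v ∈ D, v ∉ e
  · obtain ⟨e, he, heD⟩ := c3
    refine ⟨e, he, ?_⟩
    have h5 : (D.filter (· ∈ e)).card = 0 := by
      rw [Finset.card_eq_zero, Finset.filter_eq_empty_iff]
      exact fun v hv => heD v hv
    have h2 : (U.filter (· ∈ e)).card ≤ 2 := card_ends_le U e
    -- the waste
    have hz : ∀ x ∈ U \ act k (insert e C), L + 2 - U.card ≤ (outE (F \ O) U x).card := by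
      intro x hx
      have hx' := act_sdiff_subset k C e hx
      rw [← hU] at hx'
      obtain ⟨hxU, hxe⟩ := mem_filter.1 hx'
      have hxD : x ∉ D := fun h => heD x h hxe
      have h6 : L < dg F x := by
        by_contra hcon
        exact hxD (mem_dead.2 ⟨mem_act.1 hxU, by omega⟩)
      have h7 := card_outE F hxU
      have h8 : outE F U x ⊆ outE (F \ O) U x := by
        intro f hf
        rw [outE, mem_filter] at hf ⊢
        refine ⟨mem_sdiff.2 ⟨hf.1, fun hfO => c2 ⟨f, hfO, ?_, ?_⟩⟩, hf.2⟩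
        · rw [Finset.card_eq_one]
          refine ⟨x, ?_⟩
          ext v
          rw [mem_filter, mem_singleton]
          constructor
          · exact fun h => hf.2.2 v h.1 h.2
          · rintro rfl
            exact ⟨hxU, hf.2.1⟩
        · intro v hv hvf
          have := hf.2.2 v (dead_subset hv) hvf
          rw [this] at hv
          exact hxD hv
      have h9 := Finset.card_le_card h8
      omega
    have hw := tch_waste (F \ O) (hsub e)
    have hs : (U.card - (act k (insert e C)).card) * (L + 2 - U.card) ≤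
        ∑ x ∈ U \ act k (insert e C), (outE (F \ O) U x).card := by
      have h6 : ∑ _x ∈ U \ act k (insert e C), (L + 2 - U.card) ≤
        ∑ x ∈ U \ act k (insert e C), (outE (F \ O) U x).card := Finset.sum_le_sum hz
      rw [Finset.sum_const, smul_eq_mul, Finset.card_sdiff_of_subset (hsub e)] at h6
      exact h6
    refine key e he 2 0 ((U.card - (act k (insert e C)).card) * (L + 2 - U.card)) h2 h5.le (by omega) ?_
    rw [htU]
    have h7 := hcardU e
    have h6 := gam_le' m L (Finset.card_le_card (hsub e)) (by omega)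
    have h6' : (gam m L U.card : ℤ) ≤ gam m L (act k (insert e C)).card +
        2 * (((U.card - (act k (insert e C)).card) * (L + 2 - U.card) : ℕ) : ℤ) := by exact_mod_cast h6
    push_cast at h6' ⊢
    linarith
  · push Not at c3
    obtain ⟨e, he, he1⟩ := exists_one_end (X := D) (m := m)
      (lt_of_le_of_lt (Nat.choose_le_choose 2 (by omega)) h3) hOc c3
    refine ⟨e, he, ?_⟩
    have htD : tch O D = m := by rw [tch_all c3, hOc]
    refine key e he 2 1 0 (card_ends_le U e) he1.le (tch_mono (hsub e)) ?_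
    rw [htU, htD]
    have h6 := gam_le m L (Finset.card_le_card (hsub e))
    have h7 := hcardU e
    have h2 : (U.filter (· ∈ e)).card ≤ 2 := card_ends_le U e
    have h8 : m * (U.card - (act k (insert e C)).card) ≤ m * 2 := Nat.mul_le_mul_left _ (by omega)
    have h9 : gam m L U.card ≤ gam m L (act k (insert e C)).card + m * 2 := by omega
    have h9' : (gam m L U.card : ℤ) ≤ gam m L (act k (insert e C)).card + m * 2 := by exact_mod_cast h9
    push_cast
    nlinarith

/-- The potential of Client when Waiter wins. -/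
theorem client_pot {q k κ d L : ℕ} (hκ : 1 ≤ κ) (h1 : κ * L + (q + 1) ≤ κ * (q + 1))
    (h2 : L * (d + 1) + 2 * (q + 1) < (q + 1) * (d + 1)) (h3 : (d + 1).choose 2 < q + 1)
    {C F : Finset (Sym2 (Fin n))} (hW : WWin q (MinDeg k) C F) : 0 ≤ cpot (q + 1) k κ d L C F + 4 * (q + 1) := by
  have hend : ∀ C F : Finset (Sym2 (Fin n)), (dead k L C F).card ≤ d → sdf k C univ ≤ 2 →
      0 ≤ cpot (q + 1) k κ d L C F + 4 * (q + 1) := by
    intro C F hD hS
    have e1 := bpot_nonneg (m := q + 1) (k := k) hκ (C := C) (F := F) hD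
    have e2 : (act k C).card ≤ 2 := by
      have := card_act_le k C (act k C) (Finset.Subset.refl _)
      rw [sdf_act] at this
      omega
    have e3 := gam_le (q + 1) L (Nat.zero_le (act k C).card)
    have e4 : (q + 1) * ((act k C).card - 0) ≤ (q + 1) * 2 := Nat.mul_le_mul_left _ (by omega)
    have e5 : gam (q + 1) L (act k C).card ≤ (q + 1) * 2 := by
      have : gam (q + 1) L 0 = 0 := rfl
      omega
    have e5' : (gam (q + 1) L (act k C).card : ℤ) ≤ (q + 1) * 2 := by exact_mod_cast e5
    have e6 : ((q : ℤ) + 1) * sdf k C univ ≤ (q + 1) * 2 := by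
      have : (sdf k C univ : ℤ) ≤ 2 := by exact_mod_cast hS
      exact mul_le_mul_of_nonneg_left this (by positivity)
    rw [cpot]
    push_cast at e1 ⊢
    have e7 : (0 : ℤ) ≤ tch F (act k C) := by positivity
    linarith
  have hdead := fun C F (h : WWin q (MinDeg k) C F) => card_dead_le (n := n) (L := L) h2 h3 h
  induction hW with
  | claimed C hC =>
    apply hend _ _ (hdead _ _ (WWin.claimed C hC))
    have : sdf k C univ = 0 := Finset.sum_eq_zero fun v _ => by
      have := hC v
      omega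
    omega
  | last C F hne hlt hF =>
    apply hend _ _ (hdead _ _ (WWin.last C F hne hlt hF))
    obtain ⟨e, he⟩ := hne
    have h4 := sdf_insert_le k C e univ
    have h5 := card_ends_le univ e
    have h6 : sdf k (insert e C) univ = 0 := Finset.sum_eq_zero fun v _ => by
      have := hF e he v
      omega
    omega
  | round C F O hO hOc hW' ih =>
    obtain ⟨e, he, he'⟩ := cpot_round (m := q + 1) (k := k) (d := d) hκ h1 h3 hO hOc (hdead _ _ (WWin.round C F O hO hOc hW'))
    have := ih e he
    linarith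

/-- The inequality for the start of the game. -/
theorem client_ineq {q k κ d L : ℕ} (hκ : 1 ≤ κ) (h1 : κ * L + (q + 1) ≤ κ * (q + 1))
    (h2 : L * (d + 1) + 2 * (q + 1) < (q + 1) * (d + 1)) (h3 : (d + 1).choose 2 < q + 1) (hd : d < n) (hk : 0 < k)
    (hW : WaiterWins n q k) :
    L < n ∧ 4 * ((q + 1) * (k * n)) + 4 * L * (q + 1) ≤
      4 * (n * (n - 1)) + 8 * (κ * ((q + 1) * (k * d))) + 16 * (q + 1) + (q + 1) ^ 2 := by
  have hdead := card_dead_le (L := L) h2 h3 hW
  have hdg0 : ∀ v : Fin n, dg (∅ : Finset (Sym2 (Fin n))) v = 0 := fun v => by simp [dg]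
  have hL : L < n - 1 := by
    by_contra hcon
    have : dead k L (∅ : Finset (Sym2 (Fin n))) (edges n) = univ := by
      ext v
      rw [mem_dead, dg_edges, hdg0]
      simp only [mem_univ, iff_true]
      omega
    rw [this, Finset.card_univ, Fintype.card_fin] at hdead
    omega
  refine ⟨by omega, ?_⟩
  have hD : dead k L (∅ : Finset (Sym2 (Fin n))) (edges n) = ∅ := by
    ext v
    rw [mem_dead, dg_edges]
    simp only [Finset.notMem_empty, iff_false]
    omega
  have hact : act k (∅ : Finset (Sym2 (Fin n))) = univ := by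
    ext v
    rw [mem_act, hdg0]
    simp only [mem_univ, iff_true]
    omega
  have h4 := client_pot (L := L) (d := d) hκ h1 h2 h3 hW
  rw [cpot, hD, hact, bpot, Finset.card_univ, Fintype.card_fin] at h4
  have e1 : sdf k (∅ : Finset (Sym2 (Fin n))) univ = n * k := by
    rw [sdf, Finset.sum_congr rfl fun v _ => by rw [hdg0 v, Nat.sub_zero], Finset.sum_const, Finset.card_univ,
      Fintype.card_fin, smul_eq_mul]
  have e2 : sdf k (∅ : Finset (Sym2 (Fin n))) ∅ = 0 := Finset.sum_empty
  have e3 : tch (edges n) (∅ : Finset (Fin n)) = 0 := by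
    rw [tch, Finset.card_eq_zero, Finset.filter_eq_empty_iff]
    rintro e _ ⟨v, hv, _⟩
    exact absurd hv (Finset.notMem_empty v)
  have e4 : tch (edges n) (univ : Finset (Fin n)) ≤ (edges n).card := Finset.card_filter_le _ _
  have e5 := card_edges (n := n)
  have e6 : gam (q + 1) L L ≤ gam (q + 1) L n :=
    Finset.sum_le_sum_of_subset (Finset.range_mono (by omega))
  have e7 := four_gam_ge (q + 1) L
  rw [e1, e2, e3] at h4
  have e4' : (tch (edges n) (univ : Finset (Fin n)) : ℤ) ≤ (edges n).card := by exact_mod_cast e4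
  have e5' : 2 * ((edges n).card : ℤ) = ((n * (n - 1) : ℕ) : ℤ) := by exact_mod_cast e5
  have e6' : (gam (q + 1) L L : ℤ) ≤ gam (q + 1) L n := by exact_mod_cast e6
  have e7' : (4 : ℤ) * L * ((q : ℤ) + 1) ≤ 4 * gam (q + 1) L L + ((q : ℤ) + 1) ^ 2 := by exact_mod_cast e7
  have goal : (4 : ℤ) * (((q : ℤ) + 1) * (k * n)) + 4 * L * ((q : ℤ) + 1) ≤
      4 * ((n * (n - 1) : ℕ) : ℤ) + 8 * (κ * (((q : ℤ) + 1) * (k * d))) + 16 * ((q : ℤ) + 1) + ((q : ℤ) + 1) ^ 2 := by
    push_cast at h4 ⊢
    push_cast at e5'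
    nlinarith [h4, e4', e5', e6', e7']
  exact_mod_cast goal

end Pool.Agent.Helper68.WC
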