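import Pool.Agent.Helper68.WC.Thr

/-!
# The first phase of Waiter for all `k` (MP_f3ca85_co)

The vertices are divided into classes `κ` (an abelian group with `k` elements); the colour of an edge is the sum of the classes
of its ends. In the game of colour `c` Waiter wants every vertex to get an edge of colour `c`.
-/

set_option autoImplicit false
set_option linter.unusedSectionVars false

namespace Pool.Agent.Helper68.WC

open Finset

variable {n : ℕ} {κ : Type} [AddCommGroup κ] [DecidableEq κ] [Fintype κ]

/-- The colour of an edge. -/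
def col (cl : Fin n → κ) (e : Sym2 (Fin n)) : κ := Sym2.lift ⟨fun x y => cl x + cl y, fun _ _ => add_comm _ _⟩ e

theorem col_mk (cl : Fin n → κ) (x y : Fin n) : col cl s(x, y) = cl x + cl y := rfl

/-- The number of edges of `B` at `v` with the colour `c`. -/
def cdg (cl : Fin n → κ) (B : Finset (Sym2 (Fin n))) (c : κ) (v : Fin n) : ℕ :=
  (B.filter fun e => v ∈ e ∧ col cl e = c).card

/-- The vertices of the class `i` which have no edge of the colour `c` in `C`. -/
def unc (cl : Fin n → κ) (C : Finset (Sym2 (Fin n))) (c i : κ) : Finset (Fin n) :=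
  univ.filter fun z => cl z = i ∧ cdg cl C c z = 0

theorem mem_unc {cl : Fin n → κ} {C : Finset (Sym2 (Fin n))} {c i : κ} {z : Fin n} :
    z ∈ unc cl C c i ↔ cl z = i ∧ cdg cl C c z = 0 := by
  rw [unc, mem_filter]
  exact ⟨fun h => h.2, fun h => ⟨mem_univ _, h⟩⟩

theorem dg_eq_sum_cdg (cl : Fin n → κ) (B : Finset (Sym2 (Fin n))) (v : Fin n) : dg B v = ∑ c, cdg cl B c v := by
  have h := Finset.card_eq_sum_card_fiberwise (f := col cl) (s := B.filter fun e => v ∈ e) (t := univ)
    (fun _ _ => mem_coe.2 (mem_univ _))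
  rw [dg, h]
  refine Finset.sum_congr rfl fun c _ => ?_
  rw [cdg, Finset.filter_filter]

theorem cdg_insert {cl : Fin n → κ} {C : Finset (Sym2 (Fin n))} {e : Sym2 (Fin n)} (he : e ∉ C) (c : κ) (z : Fin n) :
    cdg cl (insert e C) c z = cdg cl C c z + if z ∈ e ∧ col cl e = c then 1 else 0 := by
  rw [cdg, Finset.filter_insert]
  split_ifs with h
  · rw [Finset.card_insert_of_notMem]
    · rfl
    · intro hc
      exact he (mem_filter.1 hc).1
  · rfl

theorem cdg_union {cl : Fin n → κ} {B S : Finset (Sym2 (Fin n))} (h : Disjoint B S) (c : κ) (z : Fin n) :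
    cdg cl (B ∪ S) c z = cdg cl B c z + cdg cl S c z := by
  rw [cdg, cdg, cdg, Finset.filter_union, Finset.card_union_of_disjoint (Finset.disjoint_filter_filter h)]

/-- The edges of a star at another vertex. -/
theorem cdg_star {cl : Fin n → κ} {v z : Fin n} (hz : z ≠ v) {G : Finset (Fin n)} {i j c : κ} (hv : cl v = i)
    (hG : ∀ g ∈ G, cl g = j) (hc : i + j = c) (c' : κ) :
    cdg cl (star v G) c' z = if c' = c ∧ z ∈ G then 1 else 0 := by
  have h1 : ((star v G).filter fun e => z ∈ e ∧ col cl e = c') = if c' = c ∧ z ∈ G then {s(v, z)} else ∅ := by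
    ext e
    rw [mem_filter, mem_star]
    split_ifs with h
    · rw [mem_singleton]
      constructor
      · rintro ⟨⟨g, hg, rfl⟩, hze, _⟩
        rcases Sym2.mem_iff.1 hze with h1 | h1
        · exact absurd h1 hz
        · rw [h1]
      · rintro rfl
        exact ⟨⟨z, h.2, rfl⟩, Sym2.mem_mk_right _ _, by rw [col_mk, hv, hG z h.2, hc, h.1]⟩
    · simp only [Finset.notMem_empty, iff_false]
      rintro ⟨⟨g, hg, rfl⟩, hze, hcol⟩
      rcases Sym2.mem_iff.1 hze with h1 | h1
      · exact hz h1
      · rw [col_mk, hv, hG g hg, hc] at hcol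
        rw [h1] at h
        exact h ⟨hcol.symm, hg⟩
  rw [cdg, h1]
  split_ifs <;> simp

theorem cdg_star_self {cl : Fin n → κ} {v : Fin n} {G : Finset (Fin n)} {i j c : κ} (hv : cl v = i)
    (hG : ∀ g ∈ G, cl g = j) (hc : i + j = c) {c' : κ} (hcc : c' ≠ c) (z : Fin n) :
    cdg cl (star v G) c' z = 0 := by
  rw [cdg, Finset.card_eq_zero, Finset.filter_eq_empty_iff]
  rintro e he ⟨_, hcol⟩
  obtain ⟨g, hg, rfl⟩ := mem_star.1 he
  rw [col_mk, hv, hG g hg, hc] at hcol
  exact hcc hcol.symm

/-- A set of leaves. -/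
theorem exists_leaves {α : Type} [DecidableEq α] {S O : Finset α} (hO : O ⊆ S) {m : ℕ} (hm : m ≤ S.card) :
    ∃ G ⊆ S, G.card = m ∧ (O ⊆ G ∨ G ⊆ O) := by
  rcases le_total O.card m with h | h
  · obtain ⟨G, h1, h2, h3⟩ := Finset.exists_subsuperset_card_eq hO h hm
    exact ⟨G, h2, h3, Or.inl h1⟩
  · obtain ⟨G, h1, h2⟩ := Finset.exists_subset_card_eq h
    exact ⟨G, h1.trans hO, h2, Or.inr h1⟩

/-- The invariants; `C` are the edges of Client, `B` all claimed edges; `a c i` is the number of rounds with the colour `c` and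
the centre in the class `i`, so that `a c (c - i)` is the number of rounds with the colour `c` and the leaves in the class `i`. -/
structure CInv (cl : Fin n → κ) (m : ℕ) (a : κ → κ → ℕ) (C B : Finset (Sym2 (Fin n))) : Prop where
  sub : C ⊆ B
  subE : B ⊆ edges n
  card : ∀ c i, (unc cl C c i).card + (a c i + a c (c - i)) = (univ.filter fun z => cl z = i).card
  hit : ∀ c i, ∀ z ∈ unc cl C c i, cdg cl B c z ≤ a c (c - i)
  sum : ∀ c i, ∑ z ∈ unc cl C c i, cdg cl B c z + (a c i).choose 2 + a c (c - i) ≤ m * a c (c - i)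
  org : ∀ c i, m ≤ ((unc cl C c i).filter fun z => a c (c - i) ≤ cdg cl B c z).card + (a c i + a c (c - i))
  free : ∀ x y, x ≠ y → cdg cl C (cl x + cl y) x = 0 → cdg cl C (cl x + cl y) y = 0 → s(x, y) ∉ B

/-- The number of rounds after one more round. -/
def bump (a : κ → κ → ℕ) (c i : κ) : κ → κ → ℕ := fun c' i' => a c' i' + if c' = c ∧ i' = i then 1 else 0

theorem cinv_round {cl : Fin n → κ} {m : ℕ} {a : κ → κ → ℕ} {C B : Finset (Sym2 (Fin n))} (h : CInv cl m a C B) {c i : κ}
    (hai : a c i ≤ a c (c - i)) {v w : Fin n} (hv : v ∈ unc cl C c i) (hvh : a c (c - i) ≤ cdg cl B c v)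
    {G : Finset (Fin n)} (hG : G ⊆ (unc cl C c (c - i)).erase v) (hGm : G.card = m)
    (hGO : ((unc cl C c (c - i)).filter fun z => a c i ≤ cdg cl B c z).erase v ⊆ G ∨
      G ⊆ ((unc cl C c (c - i)).filter fun z => a c i ≤ cdg cl B c z).erase v) (hw : w ∈ G) :
    CInv cl m (bump a c i) (insert s(v, w) C) (B ∪ star v G) := by
  set j := c - i with hj
  have hij : i + j = c := by rw [hj]; abel
  have hci : ∀ i' : κ, c - i' = i ↔ i' = j := by
    intro i'
    rw [hj]
    constructor
    · intro h1
      rw [← h1]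
      abel
    · intro h1
      rw [h1]
      abel
  have hvm := mem_unc.1 hv
  have hGj : ∀ g ∈ G, g ∈ unc cl C c j ∧ g ≠ v := fun g hg => by
    have := mem_erase.1 (hG hg)
    exact ⟨this.2, this.1⟩
  have hGcl : ∀ g ∈ G, cl g = j := fun g hg => (mem_unc.1 (hGj g hg).1).1
  have hwm := mem_unc.1 (hGj w hw).1
  have hwv : w ≠ v := (hGj w hw).2
  have hm0 : 0 < m := by rw [← hGm]; exact Finset.card_pos.2 ⟨w, hw⟩
  -- the star is free
  have hfree : ∀ g ∈ G, s(v, g) ∉ B := by
    intro g hg
    have h1 := mem_unc.1 (hGj g hg).1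
    have h2 : cl v + cl g = c := by rw [hvm.1, h1.1, hij]
    refine h.free v g (hGj g hg).2.symm ?_ ?_
    · rw [h2]
      exact hvm.2
    · rw [h2]
      exact h1.2
  have hdis : Disjoint B (star v G) := by
    rw [Finset.disjoint_right]
    intro e he
    obtain ⟨g, hg, rfl⟩ := mem_star.1 he
    exact hfree g hg
  have hwC : s(v, w) ∉ C := fun hc => hfree w hw (h.sub hc)
  have hcolw : col cl s(v, w) = c := by rw [col_mk, hvm.1, hwm.1, hij]
  -- the uncovered vertices
  have hunc : ∀ c' i' z, z ∈ unc cl (insert s(v, w) C) c' i' ↔ z ∈ unc cl C c' i' ∧ ¬ (c' = c ∧ (z = v ∨ z = w)) := by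
    intro c' i' z
    rw [mem_unc, mem_unc, cdg_insert hwC, hcolw]
    by_cases h1 : z ∈ s(v, w) ∧ c = c'
    · rw [if_pos h1]
      constructor
      · intro h2
        omega
      · intro h2
        exact absurd ⟨h1.2.symm, Sym2.mem_iff.1 h1.1⟩ h2.2
    · rw [if_neg h1]
      constructor
      · exact fun h2 => ⟨h2, fun h3 => h1 ⟨Sym2.mem_iff.2 h3.2, h3.1.symm⟩⟩
      · exact fun h2 => h2.1
  have hunc_ne : ∀ c' i', c' ≠ c → unc cl (insert s(v, w) C) c' i' = unc cl C c' i' := by
    intro c' i' hne
    ext z
    rw [hunc]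
    exact ⟨fun h1 => h1.1, fun h1 => ⟨h1, fun h2 => hne h2.1⟩⟩
  have hcdg_ne : ∀ c' z, c' ≠ c → cdg cl (B ∪ star v G) c' z = cdg cl B c' z := by
    intro c' z hne
    rw [cdg_union hdis, cdg_star_self hvm.1 hGcl hij hne, Nat.add_zero]
  have hcdg : ∀ z, z ≠ v → cdg cl (B ∪ star v G) c z = cdg cl B c z + if z ∈ G then 1 else 0 := by
    intro z hz
    rw [cdg_union hdis, cdg_star hz hvm.1 hGcl hij]
    simp
  -- the new counters
  have hb_ne : ∀ c' i', c' ≠ c → bump a c i c' i' = a c' i' := by
    intro c' i' hne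
    rw [bump, if_neg fun h1 => hne h1.1, Nat.add_zero]
  have hb1 : ∀ i', bump a c i c i' = a c i' + if i' = i then 1 else 0 := by
    intro i'
    rw [bump]
    simp
  have hb2 : ∀ i', bump a c i c (c - i') = a c (c - i') + if i' = j then 1 else 0 := by
    intro i'
    rw [hb1]
    congr 1
    exact if_congr (hci i') rfl rfl
  -- the old uncovered vertices
  have hvi : ∀ i', v ∈ unc cl C c i' ↔ i' = i := by
    intro i'
    rw [mem_unc]
    constructor
    · intro h1
      rw [← h1.1, hvm.1]
    · rintro rfl
      exact hvm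
  have hwi : ∀ i', w ∈ unc cl C c i' ↔ i' = j := by
    intro i'
    rw [mem_unc]
    constructor
    · intro h1
      rw [← h1.1, hwm.1]
    · rintro rfl
      exact hwm
  have hU : ∀ i', unc cl (insert s(v, w) C) c i' = ((unc cl C c i').erase v).erase w := by
    intro i'
    ext z
    rw [hunc, mem_erase, mem_erase]
    tauto
  have hsplit : ∀ (i' : κ) (f : Fin n → ℕ), ∑ z ∈ unc cl C c i', f z =
      ∑ z ∈ unc cl (insert s(v, w) C) c i', f z + ((if i' = i then f v else 0) + if i' = j then f w else 0) := by
    intro i' f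
    rw [hU]
    have e1 : ∑ z ∈ unc cl C c i', f z = ∑ z ∈ (unc cl C c i').erase v, f z + if i' = i then f v else 0 := by
      split_ifs with h1
      · exact (Finset.sum_erase_add _ _ ((hvi i').2 h1)).symm
      · rw [Finset.erase_eq_of_notMem fun h2 => h1 ((hvi i').1 h2), Nat.add_zero]
    have e2 : ∑ z ∈ (unc cl C c i').erase v, f z = ∑ z ∈ ((unc cl C c i').erase v).erase w, f z + if i' = j then f w else 0 := by
      split_ifs with h1
      · exact (Finset.sum_erase_add _ _ (mem_erase.2 ⟨hwv, (hwi i').2 h1⟩)).symm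
      · rw [Finset.erase_eq_of_notMem fun h2 => h1 ((hwi i').1 (mem_erase.1 h2).2), Nat.add_zero]
    rw [e1, e2]
    ring
  have hGU : ∀ i', i' ≠ j → ∀ z ∈ unc cl C c i', z ∉ G := by
    intro i' hne z hz hzG
    exact hne ((mem_unc.1 hz).1.symm.trans (hGcl z hzG))
  refine ⟨?_, ?_, ?_, ?_, ?_, ?_, ?_⟩
  · -- sub
    intro e he
    rw [mem_union]
    rcases mem_insert.1 he with rfl | he
    · exact Or.inr (mem_star'.2 hw)
    · exact Or.inl (h.sub he)
  · -- subE
    intro e he
    rcases mem_union.1 he with he | he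
    · exact h.subE he
    · obtain ⟨g, hg, rfl⟩ := mem_star.1 he
      rw [edges, mem_filter, Sym2.mk_isDiag_iff]
      exact ⟨mem_univ _, fun h1 => (hGj g hg).2 h1.symm⟩
  · -- card
    intro c' i'
    by_cases hc : c' = c
    · subst hc
      rw [← h.card c' i', hb1, hb2]
      have h1 := hsplit i' (fun _ => 1)
      rw [Finset.sum_const, Finset.sum_const, smul_eq_mul, smul_eq_mul, mul_one, mul_one] at h1
      rw [h1]
      ring
    · rw [hunc_ne c' i' hc, hb_ne c' i' hc, hb_ne c' _ hc]
      exact h.card c' i'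
  · -- hit
    intro c' i' z hz
    by_cases hc : c' = c
    · subst hc
      have hz' := (hunc c' i' z).1 hz
      have hzv : z ≠ v := fun h1 => hz'.2 ⟨rfl, Or.inl h1⟩
      have h1 := h.hit c' i' z hz'.1
      rw [hcdg z hzv, hb2]
      by_cases h2 : i' = j
      · rw [if_pos h2]
        split_ifs <;> omega
      · rw [if_neg h2, if_neg (hGU i' h2 z hz'.1)]
        omega
    · rw [hunc_ne c' i' hc] at hz
      rw [hcdg_ne c' z hc, hb_ne c' _ hc]
      exact h.hit c' i' z hz
  · -- sum
    intro c' i'
    by_cases hc : c' = c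
    · subst hc
      have h1 := h.sum c' i'
      rw [hsplit i'] at h1
      have e1 : ∑ z ∈ unc cl (insert s(v, w) C) c' i', cdg cl (B ∪ star v G) c' z =
          ∑ z ∈ unc cl (insert s(v, w) C) c' i', cdg cl B c' z +
            ((unc cl (insert s(v, w) C) c' i').filter (· ∈ G)).card := by
        rw [Finset.card_filter, ← Finset.sum_add_distrib]
        refine Finset.sum_congr rfl fun z hz => ?_
        exact hcdg z fun h2 => ((hunc c' i' z).1 hz).2 ⟨rfl, Or.inl h2⟩
      have e2 : ((unc cl (insert s(v, w) C) c' i').filter (· ∈ G)).card ≤ if i' = j then m - 1 else 0 := by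
        split_ifs with h2
        · rw [← hGm, ← Finset.card_erase_of_mem hw]
          apply Finset.card_le_card
          intro z hz
          have hz' := mem_filter.1 hz
          exact mem_erase.2 ⟨fun h3 => ((hunc c' i' z).1 hz'.1).2 ⟨rfl, Or.inr h3⟩, hz'.2⟩
        · rw [Nat.le_zero, Finset.card_eq_zero, Finset.filter_eq_empty_iff]
          exact fun z hz => hGU i' h2 z ((hunc c' i' z).1 hz).1
      have e3 : (bump a c' i c' i').choose 2 ≤ (a c' i').choose 2 + if i' = i then cdg cl B c' v else 0 := by
        rw [hb1]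
        split_ifs with h2
        · have : (a c' i' + 1).choose 2 = a c' i' + (a c' i').choose 2 := by
            rw [Nat.choose_succ_succ' (a c' i') 1, Nat.choose_one_right]
          rw [this, h2]
          omega
        · rfl
      rw [e1, hb2]
      have e4 : m * (a c' (c' - i') + if i' = j then 1 else 0) = m * a c' (c' - i') + if i' = j then m else 0 := by
        split_ifs <;> ring
      rw [e4]
      split_ifs at * <;> omega
    · rw [hunc_ne c' i' hc, hb_ne c' i' hc, hb_ne c' _ hc, Finset.sum_congr rfl fun z _ => hcdg_ne c' z hc]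
      exact h.sum c' i'
  · -- org
    intro c' i'
    by_cases hc : c' = c
    · subst hc
      rw [hb2, hb1]
      have h1 := h.org c' i'
      by_cases h2 : i' = j
      · rw [if_pos h2]
        have hcj : c' - i' = i := (hci i').2 h2
        rw [hcj] at h1 ⊢
        rcases hGO with h3 | h3
        · -- all original vertices are leaves
          have h4 : (((unc cl C c' i').filter fun z => a c' i ≤ cdg cl B c' z).erase v).erase w ⊆
              (unc cl (insert s(v, w) C) c' i').filter fun z => a c' i + 1 ≤ cdg cl (B ∪ star v G) c' z := by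
            intro z hz
            obtain ⟨hzw, hz⟩ := mem_erase.1 hz
            obtain ⟨hzv, hz'⟩ := mem_erase.1 hz
            rw [h2] at hz
            have hzG := h3 hz
            obtain ⟨hzU, hzh⟩ := mem_filter.1 hz'
            rw [mem_filter, hunc, hcdg z hzv, if_pos hzG]
            exact ⟨⟨hzU, fun h5 => h5.2.elim hzv hzw⟩, by omega⟩
          have h5 := Finset.card_le_card h4
          have h6 : ((unc cl C c' i').filter fun z => a c' i ≤ cdg cl B c' z).card ≤
              (((unc cl C c' i').filter fun z => a c' i ≤ cdg cl B c' z).erase v).card + if i' = i then 1 else 0 := by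
            split_ifs with h7
            · have := Finset.pred_card_le_card_erase (s := (unc cl C c' i').filter fun z => a c' i ≤ cdg cl B c' z) (a := v)
              omega
            · rw [Finset.erase_eq_of_notMem fun h8 => h7 ((hvi i').1 (mem_filter.1 h8).1)]
              omega
          have h7 := Finset.pred_card_le_card_erase
            (s := ((unc cl C c' i').filter fun z => a c' i ≤ cdg cl B c' z).erase v) (a := w)
          omega
        · have h4 : G.erase w ⊆
              (unc cl (insert s(v, w) C) c' i').filter fun z => a c' i + 1 ≤ cdg cl (B ∪ star v G) c' z := by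
            intro z hz
            obtain ⟨hzw, hzG⟩ := mem_erase.1 hz
            obtain ⟨hzv, hz'⟩ := mem_erase.1 (h3 hzG)
            obtain ⟨hzU, hzh⟩ := mem_filter.1 hz'
            rw [mem_filter, hunc, hcdg z hzv, if_pos hzG, h2]
            exact ⟨⟨hzU, fun h5 => h5.2.elim hzv hzw⟩, by omega⟩
          have h5 := Finset.card_le_card h4
          rw [Finset.card_erase_of_mem hw, hGm] at h5
          omega
      · rw [if_neg h2, Nat.add_zero]
        have h3 : ((unc cl C c' i').filter fun z => a c' (c' - i') ≤ cdg cl B c' z).erase v ⊆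
            (unc cl (insert s(v, w) C) c' i').filter fun z => a c' (c' - i') ≤ cdg cl (B ∪ star v G) c' z := by
          intro z hz
          obtain ⟨hzv, hz'⟩ := mem_erase.1 hz
          obtain ⟨hzU, hzh⟩ := mem_filter.1 hz'
          rw [mem_filter, hunc, hcdg z hzv]
          refine ⟨⟨hzU, fun h5 => h5.2.elim hzv fun h6 => ?_⟩, by omega⟩
          rw [h6] at hzU
          exact h2 ((hwi i').1 hzU)
        have h5 := Finset.card_le_card h3
        have h6 : ((unc cl C c' i').filter fun z => a c' (c' - i') ≤ cdg cl B c' z).card ≤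
            (((unc cl C c' i').filter fun z => a c' (c' - i') ≤ cdg cl B c' z).erase v).card + if i' = i then 1 else 0 := by
          split_ifs with h7
          · have := Finset.pred_card_le_card_erase
              (s := (unc cl C c' i').filter fun z => a c' (c' - i') ≤ cdg cl B c' z) (a := v)
            omega
          · rw [Finset.erase_eq_of_notMem fun h8 => h7 ((hvi i').1 (mem_filter.1 h8).1)]
            omega
        omega
    · rw [hunc_ne c' i' hc, hb_ne c' i' hc, hb_ne c' _ hc]
      have : ((unc cl C c' i').filter fun z => a c' (c' - i') ≤ cdg cl (B ∪ star v G) c' z) =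
          (unc cl C c' i').filter fun z => a c' (c' - i') ≤ cdg cl B c' z := by
        refine Finset.filter_congr fun z _ => ?_
        rw [hcdg_ne c' z hc]
      rw [this]
      exact h.org c' i'
  · -- free
    intro x y hxy hx hy
    rw [cdg_insert hwC] at hx hy
    rw [mem_union, not_or]
    refine ⟨h.free x y hxy (by omega) (by omega), fun hst => ?_⟩
    obtain ⟨g, hg, hge⟩ := mem_star.1 hst
    have hcol : cl x + cl y = c := by
      have := congrArg (col cl) hge
      rw [col_mk, col_mk, hvm.1, hGcl g hg, hij] at this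
      exact this.symm
    have hvxy : v = x ∨ v = y := by
      have : v ∈ s(x, y) := by
        rw [← hge]
        exact Sym2.mem_mk_left _ _
      exact Sym2.mem_iff.1 this
    have hcw : v ∈ s(v, w) ∧ col cl s(v, w) = cl x + cl y := ⟨Sym2.mem_mk_left _ _, by rw [hcolw, hcol]⟩
    rcases hvxy with rfl | rfl
    · rw [if_pos hcw] at hx
      omega
    · rw [if_pos hcw] at hy
      omega

end Pool.Agent.Helper68.WC
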