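import Pool.Agent.Helper68.WC.Col

/-!
# The first phase of Waiter for all `k`: the end of the phase (MP_f3ca85_co)
-/

set_option autoImplicit false
set_option linter.unusedSectionVars false

namespace Pool.Agent.Helper68.WC

open Finset

variable {n : ℕ} {κ : Type} [AddCommGroup κ] [DecidableEq κ] [Fintype κ]

theorem cdg_sdiff {cl : Fin n → κ} {E B : Finset (Sym2 (Fin n))} (h : B ⊆ E) (c : κ) (z : Fin n) :
    cdg cl (E \ B) c z + cdg cl B c z = cdg cl E c z := by
  rw [← cdg_union Finset.sdiff_disjoint, Finset.sdiff_union_of_subset h]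

/-- The number of edges of the colour `c` at a vertex. -/
theorem cdg_edges (cl : Fin n → κ) (c : κ) (z : Fin n) :
    (univ.filter fun y => cl y = c - cl z).card ≤ cdg cl (edges n) c z + 1 := by
  have h1 : ((univ.filter fun y => cl y = c - cl z).erase z).card ≤ cdg cl (edges n) c z := by
    apply Finset.card_le_card_of_injOn (fun y => s(z, y))
    · intro y hy
      obtain ⟨hyz, hy⟩ := mem_erase.1 (mem_coe.1 hy)
      rw [mem_filter] at hy
      refine mem_coe.2 (mem_filter.2 ⟨?_, Sym2.mem_mk_left _ _, ?_⟩)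
      · rw [edges, mem_filter, Sym2.mk_isDiag_iff]
        exact ⟨mem_univ _, fun h => hyz h.symm⟩
      · rw [col_mk, hy.2]
        abel
    · exact (star_inj z).injOn
  have h2 := Finset.pred_card_le_card_erase (s := univ.filter fun y => cl y = c - cl z) (a := z)
  omega

/-- The free edges of the colour `c` which touch `Y`. -/
theorem touch_ge {cl : Fin n → κ} {F : Finset (Sym2 (Fin n))} (hF : F ⊆ edges n) (c : κ) (Y : Finset (Fin n)) :
    2 * ∑ z ∈ Y, cdg cl F c z ≤ 2 * (F.filter fun e => col cl e = c ∧ ∃ v ∈ Y, v ∈ e).card +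
      ∑ z ∈ Y, (Y.filter fun y => cl y = c - cl z).card := by
  -- the edges inside
  let F' := F.filter fun e => col cl e = c
  have e1 : ∑ z ∈ Y, cdg cl F c z = ∑ e ∈ F', (Y.filter (· ∈ e)).card := by
    have : ∀ z, cdg cl F c z = ∑ e ∈ F', if z ∈ e then 1 else 0 := by
      intro z
      rw [← Finset.card_filter, Finset.filter_filter, cdg]
      congr 1
      refine Finset.filter_congr fun e _ => ?_
      tauto
    rw [Finset.sum_congr rfl fun z _ => this z, Finset.sum_comm]
    refine Finset.sum_congr rfl fun e _ => ?_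
    rw [Finset.card_filter]
  have e2 : (F.filter fun e => col cl e = c ∧ ∃ v ∈ Y, v ∈ e).card = ∑ e ∈ F', if ∃ v ∈ Y, v ∈ e then 1 else 0 := by
    rw [← Finset.card_filter, Finset.filter_filter]
  have e3 : ∑ e ∈ F', (if (Y.filter (· ∈ e)).card = 2 then 2 else 0) ≤
      ∑ z ∈ Y, (Y.filter fun y => cl y = c - cl z).card := by
    have h1 : ∀ e ∈ F', (if (Y.filter (· ∈ e)).card = 2 then 2 else 0) =
        ∑ z ∈ Y, if z ∈ e ∧ (Y.filter (· ∈ e)).card = 2 then 1 else 0 := by
      intro e _
      split_ifs with h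
      · rw [← h, Finset.card_filter]
        refine Finset.sum_congr rfl fun z _ => ?_
        by_cases hz : z ∈ e
        · rw [if_pos hz, if_pos ⟨hz, by rw [← Finset.card_filter]⟩]
        · rw [if_neg hz, if_neg fun h2 => hz h2.1]
      · symm
        refine Finset.sum_eq_zero fun z _ => ?_
        rw [if_neg fun h2 => h h2.2]
    rw [Finset.sum_congr rfl h1, Finset.sum_comm]
    refine Finset.sum_le_sum fun z hz => ?_
    rw [← Finset.card_filter]
    have h2 : (F'.filter fun e => z ∈ e ∧ (Y.filter (· ∈ e)).card = 2) ⊆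
        (Y.filter fun y => cl y = c - cl z).image fun y => s(z, y) := by
      intro e he
      obtain ⟨heF, hze, he2⟩ := mem_filter.1 he
      obtain ⟨heF, hcol⟩ := mem_filter.1 heF
      have hzm : z ∈ Y.filter (· ∈ e) := mem_filter.2 ⟨hz, hze⟩
      obtain ⟨y, hy, hyz⟩ := Finset.exists_mem_ne (by omega : 1 < (Y.filter (· ∈ e)).card) z
      obtain ⟨hyY, hye⟩ := mem_filter.1 hy
      have he' : e = s(z, y) := (Sym2.mem_and_mem_iff (Ne.symm hyz)).1 ⟨hze, hye⟩
      rw [mem_image]
      refine ⟨y, mem_filter.2 ⟨hyY, ?_⟩, he'.symm⟩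
      rw [he', col_mk] at hcol
      rw [← hcol]
      abel
    exact (Finset.card_le_card h2).trans Finset.card_image_le
  rw [e1, e2, Finset.mul_sum, Finset.mul_sum]
  refine le_trans ?_ (Nat.add_le_add_left e3 _)
  rw [← Finset.sum_add_distrib]
  refine Finset.sum_le_sum fun e _ => ?_
  have h1 := card_ends_le Y e
  by_cases h2 : ∃ v ∈ Y, v ∈ e
  · rw [if_pos h2]
    split_ifs <;> omega
  · have h3 : (Y.filter (· ∈ e)).card = 0 := by
      rw [Finset.card_eq_zero, Finset.filter_eq_empty_iff]
      exact fun v hv hve => h2 ⟨v, hv, hve⟩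
    omega

/-- Pairs of classes. -/
theorem pairs_le (cl : Fin n → κ) (c : κ) (Y : Finset (Fin n)) :
    ∑ z ∈ Y, (Y.filter fun y => cl y = c - cl z).card ≤ ∑ i, (Y.filter fun y => cl y = i).card ^ 2 := by
  have e1 : ∑ z ∈ Y, (Y.filter fun y => cl y = c - cl z).card =
      ∑ i, (Y.filter fun y => cl y = i).card * (Y.filter fun y => cl y = c - i).card := by
    rw [← Finset.sum_fiberwise_of_maps_to (g := cl) (t := univ) (fun _ _ => mem_univ _)]
    refine Finset.sum_congr rfl fun i _ => ?_
    rw [Finset.sum_congr rfl (g := fun _ => (Y.filter fun y => cl y = c - i).card), Finset.sum_const, smul_eq_mul]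
    intro z hz
    rw [(mem_filter.1 hz).2]
  have e2 : ∑ i, (Y.filter fun y => cl y = c - i).card ^ 2 = ∑ i, (Y.filter fun y => cl y = i).card ^ 2 :=
    Fintype.sum_equiv (Equiv.subLeft c) _ _ fun i => rfl
  have h : 2 * ∑ i, (Y.filter fun y => cl y = i).card * (Y.filter fun y => cl y = c - i).card ≤
      ∑ i, (Y.filter fun y => cl y = i).card ^ 2 + ∑ i, (Y.filter fun y => cl y = c - i).card ^ 2 := by
    rw [Finset.mul_sum, ← Finset.sum_add_distrib]
    refine Finset.sum_le_sum fun i _ => ?_
    have := two_mul_le_add_sq (Y.filter fun y => cl y = i).card (Y.filter fun y => cl y = c - i).card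
    linarith
  rw [e1]
  omega

/-- The number of missing edges. -/
theorem def_le {cl : Fin n → κ} {k : ℕ} (hk : Fintype.card κ = k) (C : Finset (Sym2 (Fin n))) (v : Fin n) :
    k - dg C v ≤ (univ.filter fun c => cdg cl C c v = 0).card := by
  have h1 : (univ.filter fun c => ¬ cdg cl C c v = 0).card ≤ dg C v := by
    rw [dg_eq_sum_cdg cl, Finset.card_filter]
    refine Finset.sum_le_sum fun c _ => ?_
    split_ifs <;> omega
  have h2 := Finset.card_filter_add_card_filter_not (s := (univ : Finset κ)) (fun c => cdg cl C c v = 0)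
  rw [Finset.card_univ, hk] at h2
  omega

/-- The end of the first phase. -/
theorem win_phase_end {cl : Fin n → κ} {k m N T : ℕ} (hk : Fintype.card κ = k) (hm : 0 < m)
    (hN : ∀ i, N ≤ (univ.filter fun z => cl z = i).card) (hN' : ∀ i, (univ.filter fun z => cl z = i).card ≤ N + 1)
    {a : κ → κ → ℕ} {C B : Finset (Sym2 (Fin n))} (h : CInv cl m a C B) (ha : ∀ c i, a c i = T)
    (hT : ∀ y S : ℕ, y + 2 * T ≤ N + 1 → S ≤ T * y → S + T.choose 2 + T ≤ m * T →
      y ^ 2 + 2 * S + 2 * m * y + 2 * y ≤ 2 * (N * y)) :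
    WWin (m - 1) (MinDeg k) C (edges n \ B) := by
  refine win_hall hm (Finset.disjoint_of_subset_left h.sub Finset.disjoint_sdiff) fun X _ => ?_
  let Y : κ → Finset (Fin n) := fun c => X.filter fun z => cdg cl C c z = 0
  -- each colour
  have hcol : ∀ c, m * (Y c).card ≤ ((edges n \ B).filter fun e => col cl e = c ∧ ∃ v ∈ Y c, v ∈ e).card := by
    intro c
    have h1 := touch_ge (cl := cl) (F := edges n \ B) Finset.sdiff_subset c (Y c)
    have h2 := pairs_le cl c (Y c)
    have h3 : ∀ z ∈ Y c, N ≤ cdg cl (edges n \ B) c z + cdg cl B c z + 1 := by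
      intro z _
      rw [cdg_sdiff h.subE]
      exact (hN _).trans (cdg_edges cl c z)
    -- each class
    have h4 : ∀ i, ((Y c).filter fun y => cl y = i).card ^ 2 + 2 * ∑ z ∈ (Y c).filter (fun y => cl y = i), cdg cl B c z +
        2 * m * ((Y c).filter fun y => cl y = i).card + 2 * ((Y c).filter fun y => cl y = i).card ≤
        2 * (N * ((Y c).filter fun y => cl y = i).card) := by
      intro i
      have hsub : ((Y c).filter fun y => cl y = i) ⊆ unc cl C c i := by
        intro z hz
        obtain ⟨hz1, hz2⟩ := mem_filter.1 hz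
        exact mem_unc.2 ⟨hz2, (mem_filter.1 hz1).2⟩
      refine hT _ _ ?_ ?_ ?_
      · have h5 := h.card c i
        rw [ha, ha] at h5
        have h6 := Finset.card_le_card hsub
        have h7 := hN' i
        omega
      · calc ∑ z ∈ (Y c).filter (fun y => cl y = i), cdg cl B c z ≤ ∑ _z ∈ (Y c).filter (fun y => cl y = i), T :=
              Finset.sum_le_sum fun z hz => by
                have := h.hit c i z (hsub hz)
                rwa [ha] at this
          _ = T * ((Y c).filter fun y => cl y = i).card := by rw [Finset.sum_const, smul_eq_mul, mul_comm]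
      · have h5 := h.sum c i
        rw [ha, ha] at h5
        have h6 : ∑ z ∈ (Y c).filter (fun y => cl y = i), cdg cl B c z ≤ ∑ z ∈ unc cl C c i, cdg cl B c z :=
          Finset.sum_le_sum_of_subset hsub
        omega
    have h5 := Finset.sum_le_sum fun i (_ : i ∈ (univ : Finset κ)) => h4 i
    rw [Finset.sum_add_distrib, Finset.sum_add_distrib, Finset.sum_add_distrib, ← Finset.mul_sum, ← Finset.mul_sum,
      ← Finset.mul_sum, ← Finset.mul_sum, ← Finset.mul_sum,
      Finset.sum_fiberwise_of_maps_to (g := cl) (t := univ) (fun _ _ => mem_univ _),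
      ← Finset.card_eq_sum_card_fiberwise (f := cl) (s := Y c) (t := univ) (fun _ _ => mem_coe.2 (mem_univ _))] at h5
    have h6 := Finset.sum_le_sum h3
    rw [Finset.sum_add_distrib, Finset.sum_add_distrib, Finset.sum_const, Finset.sum_const, smul_eq_mul, smul_eq_mul,
      mul_one] at h6
    have h7 : 2 * (m * (Y c).card) ≤
        2 * ((edges n \ B).filter fun e => col cl e = c ∧ ∃ v ∈ Y c, v ∈ e).card := by
      have e1 : (Y c).card * N = N * (Y c).card := mul_comm _ _
      have e2 : 2 * m * (Y c).card = 2 * (m * (Y c).card) := mul_assoc _ _ _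
      omega
    omega
  -- all colours
  have h1 : ∑ v ∈ X, m * (k - dg C v) ≤ ∑ c, m * (Y c).card := by
    rw [← Finset.mul_sum, ← Finset.mul_sum]
    apply Nat.mul_le_mul_left
    have h2 : ∑ c, (Y c).card = ∑ v ∈ X, (univ.filter fun c => cdg cl C c v = 0).card := by
      simp only [Y, Finset.card_filter]
      rw [Finset.sum_comm]
    rw [h2]
    exact Finset.sum_le_sum fun v _ => def_le hk C v
  refine h1.trans ((Finset.sum_le_sum fun c _ => hcol c).trans ?_)
  have h2 : ∀ c, ((edges n \ B).filter fun e => col cl e = c ∧ ∃ v ∈ Y c, v ∈ e).card ≤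
      (((edges n \ B).filter fun e => ∃ v ∈ X, v ∈ e).filter fun e => col cl e = c).card := by
    intro c
    apply Finset.card_le_card
    intro e he
    obtain ⟨he1, he2, v, hv, hve⟩ := mem_filter.1 he
    exact mem_filter.2 ⟨mem_filter.2 ⟨he1, v, (mem_filter.1 hv).1, hve⟩, he2⟩
  refine (Finset.sum_le_sum fun c _ => h2 c).trans ?_
  rw [← Finset.card_eq_sum_card_fiberwise (f := col cl) (t := univ) (fun _ _ => mem_coe.2 (mem_univ _))]

/-- The first phase. -/
theorem win_phase {cl : Fin n → κ} {k m N T : ℕ} (hk : Fintype.card κ = k) (hm : 0 < m)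
    (hN : ∀ i, N ≤ (univ.filter fun z => cl z = i).card) (hN' : ∀ i, (univ.filter fun z => cl z = i).card ≤ N + 1)
    (hT : ∀ y S : ℕ, y + 2 * T ≤ N + 1 → S ≤ T * y → S + T.choose 2 + T ≤ m * T →
      y ^ 2 + 2 * S + 2 * m * y + 2 * y ≤ 2 * (N * y))
    (hTm : 2 * T ≤ m) (hTN : m + 2 * T ≤ N) :
    ∀ (R : ℕ) (a : κ → κ → ℕ) (C B : Finset (Sym2 (Fin n))), CInv cl m a C B → (∀ c i, a c i ≤ T) →
      ∑ c, ∑ i, (T - a c i) = R → WWin (m - 1) (MinDeg k) C (edges n \ B) := by
  intro R
  induction R with
  | zero =>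
    intro a C B h ha hR
    refine win_phase_end hk hm hN hN' h (fun c i => ?_) hT
    have h1 := (Finset.sum_eq_zero_iff.1 hR) c (mem_univ c)
    have h2 := (Finset.sum_eq_zero_iff.1 h1) i (mem_univ i)
    have := ha c i
    omega
  | succ R ih =>
    intro a C B h ha hR
    -- a slot with the least number of rounds
    obtain ⟨⟨c, i⟩, _, hmin⟩ := Finset.exists_min_image (univ : Finset (κ × κ)) (fun p => a p.1 p.2)
      (by
        by_contra hcon
        rw [Finset.not_nonempty_iff_eq_empty] at hcon
        have : ∑ c : κ, ∑ i : κ, (T - a c i) = 0 := by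
          refine Finset.sum_eq_zero fun c _ => Finset.sum_eq_zero fun i _ => ?_
          exact absurd (mem_univ (c, i)) (by rw [hcon]; exact Finset.notMem_empty _)
        omega)
    have hlt : a c i < T := by
      by_contra hcon
      have : ∑ c : κ, ∑ i : κ, (T - a c i) = 0 := by
        refine Finset.sum_eq_zero fun c' _ => Finset.sum_eq_zero fun i' _ => ?_
        have := hmin (c', i') (mem_univ _)
        simp only at this
        omega
      omega
    have hai : a c i ≤ a c (c - i) := hmin (c, c - i) (mem_univ _)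
    have hcc : c - (c - i) = i := by abel
    -- the centre
    have h1 := h.org c i
    have haj := ha c (c - i)
    obtain ⟨v, hv⟩ : ((unc cl C c i).filter fun z => a c (c - i) ≤ cdg cl B c z).Nonempty :=
      Finset.card_pos.1 (by omega)
    obtain ⟨hvU, hvh⟩ := mem_filter.1 hv
    -- the leaves
    have h2 : m ≤ ((unc cl C c (c - i)).erase v).card := by
      have h3 := h.card c (c - i)
      rw [hcc] at h3
      have h4 := hN (c - i)
      have h5 := Finset.pred_card_le_card_erase (s := unc cl C c (c - i)) (a := v)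
      omega
    obtain ⟨G, hG, hGm, hGO⟩ := exists_leaves
      (O := ((unc cl C c (c - i)).filter fun z => a c i ≤ cdg cl B c z).erase v)
      (Finset.erase_subset_erase v (Finset.filter_subset _ _)) h2
    have hvm := mem_unc.1 hvU
    refine WWin.round _ _ (star v G) ?_ ?_ ?_
    · intro e he
      obtain ⟨g, hg, rfl⟩ := mem_star.1 he
      obtain ⟨hgv, hgU⟩ := mem_erase.1 (hG hg)
      have hgm := mem_unc.1 hgU
      have hcol : cl v + cl g = c := by
        rw [hvm.1, hgm.1]
        abel
      rw [mem_sdiff, edges, mem_filter, Sym2.mk_isDiag_iff]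
      refine ⟨⟨mem_univ _, fun h3 => hgv h3.symm⟩, h.free v g hgv.symm ?_ ?_⟩
      · rw [hcol]
        exact hvm.2
      · rw [hcol]
        exact hgm.2
    · rw [card_star, hGm]
      omega
    · intro e he
      obtain ⟨w, hw, rfl⟩ := mem_star.1 he
      have h3 := cinv_round h hai hvU hvh hG hGm hGO hw
      have h4 : (edges n \ B) \ star v G = edges n \ (B ∪ star v G) := by
        ext x
        simp only [mem_sdiff, mem_union, not_or, and_assoc]
      rw [h4]
      refine ih (bump a c i) _ _ h3 ?_ ?_
      · intro c' i'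
        rw [bump]
        split_ifs with h5
        · rw [h5.1, h5.2]
          omega
        · exact ha c' i'
      · have h5 : ∀ c' i', T - a c' i' = (T - bump a c i c' i') + if c' = c ∧ i' = i then 1 else 0 := by
          intro c' i'
          rw [bump]
          split_ifs with h6
          · rw [h6.1, h6.2]
            omega
          · rfl
        have h6 : ∑ c', ∑ i', (T - a c' i') = ∑ c', ∑ i', (T - bump a c i c' i') + 1 := by
          rw [Finset.sum_congr rfl fun c' _ => Finset.sum_congr rfl fun i' _ => h5 c' i']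
          rw [Finset.sum_congr rfl fun c' _ => Finset.sum_add_distrib, Finset.sum_add_distrib]
          congr 1
          rw [Finset.sum_eq_single c, Finset.sum_eq_single i]
          · simp
          · intro i' _ hne
            rw [if_neg fun h7 => hne h7.2]
          · intro h7
            exact absurd (mem_univ _) h7
          · intro c' _ hne
            refine Finset.sum_eq_zero fun i' _ => ?_
            rw [if_neg fun h7 => hne h7.1]
          · intro h7
            exact absurd (mem_univ _) h7
        omega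

/-- The start. -/
theorem cinv_start {cl : Fin n → κ} {m : ℕ} (hN : ∀ i, m ≤ (univ.filter fun z => cl z = i).card) :
    CInv cl m (fun _ _ => 0) ∅ ∅ := by
  have h0 : ∀ c z, cdg cl (∅ : Finset (Sym2 (Fin n))) c z = 0 := fun c z => by rw [cdg, Finset.filter_empty, Finset.card_empty]
  have hU : ∀ c i, unc cl (∅ : Finset (Sym2 (Fin n))) c i = univ.filter fun z => cl z = i := by
    intro c i
    ext z
    rw [mem_unc, mem_filter, h0]
    simp
  refine ⟨Finset.Subset.refl _, Finset.empty_subset _, ?_, ?_, ?_, ?_, ?_⟩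
  · intro c i
    rw [hU]
    rfl
  · intro c i z _
    rw [h0]
  · intro c i
    rw [Finset.sum_eq_zero fun z _ => h0 c z]
    simp
  · intro c i
    rw [hU]
    simp only [Nat.zero_le, Finset.filter_true]
    exact hN i
  · intro x y _ _ _
    exact Finset.notMem_empty _

/-- Waiter wins if some numbers are small. -/
theorem waiter_phase {cl : Fin n → κ} {k m N T : ℕ} (hk : Fintype.card κ = k) (hm : 0 < m)
    (hN : ∀ i, N ≤ (univ.filter fun z => cl z = i).card) (hN' : ∀ i, (univ.filter fun z => cl z = i).card ≤ N + 1)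
    (hT : ∀ y S : ℕ, y + 2 * T ≤ N + 1 → S ≤ T * y → S + T.choose 2 + T ≤ m * T →
      y ^ 2 + 2 * S + 2 * m * y + 2 * y ≤ 2 * (N * y))
    (hTm : 2 * T ≤ m) (hTN : m + 2 * T ≤ N) : WWin (m - 1) (MinDeg k) ∅ (edges n) := by
  have h1 := win_phase hk hm hN hN' hT hTm hTN _ (fun _ _ => 0) ∅ ∅ (cinv_start fun i => by
    have := hN i
    omega) (fun _ _ => Nat.zero_le _) rfl
  rwa [Finset.sdiff_empty] at h1

end Pool.Agent.Helper68.WC
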