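import Mathlib

/-!
# Waiter-Client games (MP_f3ca85_co): definitions and basic lemmas
-/

set_option autoImplicit false

namespace Pool.Agent.Helper68.WC

open Finset

section General

variable {E : Type} [DecidableEq E]

/-- Waiter, who offers `q + 1` elements in each round, has a winning strategy from the position in which Client has claimed
the set `C` and the elements of `F` are unclaimed: in the end the set claimed by Client should have the property `P`.
`claimed`: all elements are claimed. `last`: fewer than `q + 1` elements are left, Waiter offers all of them and Client chooses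
one of them. `round`: Waiter offers the `q + 1` elements of `O`, Client chooses one of them, the others go to Waiter. -/
inductive WWin (q : ℕ) (P : Finset E → Prop) : Finset E → Finset E → Prop
  | claimed (C : Finset E) : P C → WWin q P C ∅
  | last (C F : Finset E) : F.Nonempty → F.card < q + 1 → (∀ e ∈ F, P (insert e C)) → WWin q P C F
  | round (C F O : Finset E) : O ⊆ F → O.card = q + 1 → (∀ e ∈ O, WWin q P (insert e C) (F \ O)) → WWin q P C F

variable {q : ℕ} {P : Finset E → Prop}

/-- If the property is already there, then Waiter wins. -/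
theorem WWin.of_prop (hP : ∀ C e, P C → P (insert e C)) : ∀ (N : ℕ) (C F : Finset E), F.card = N → P C → WWin q P C F := by
  intro N
  induction N using Nat.strong_induction_on with
  | _ N ih =>
    intro C F hF hC
    by_cases h0 : F = ∅
    · subst h0
      exact WWin.claimed C hC
    by_cases h1 : F.card < q + 1
    · exact WWin.last C F (Finset.nonempty_iff_ne_empty.2 h0) h1 fun e _ => hP C e hC
    · obtain ⟨O, hO, hO'⟩ := Finset.exists_subset_card_eq (n := q + 1) (s := F) (by omega)
      refine WWin.round C F O hO hO' fun e _ => ?_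
      refine ih (F \ O).card ?_ _ _ rfl (hP C e hC)
      rw [Finset.card_sdiff_of_subset hO]
      omega

/-- Waiter may offer `d` disjoint sets one after the other. -/
theorem WWin.offers [Nonempty E] (d : ℕ) : ∀ (C F : Finset E) (O : ℕ → Finset E), (∀ i < d, O i ⊆ F) →
    (∀ i < d, (O i).card = q + 1) → (∀ i < d, ∀ j < d, i ≠ j → Disjoint (O i) (O j)) →
    (∀ c : ℕ → E, (∀ i < d, c i ∈ O i) → WWin q P (C ∪ (range d).image c) (F \ (range d).biUnion O)) → WWin q P C F := by
  induction d with
  | zero =>
    intro C F O _ _ _ h
    have := h (fun _ => Classical.arbitrary E) (fun i hi => absurd hi (Nat.not_lt_zero i))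
    simpa using this
  | succ d ih =>
    intro C F O h1 h2 h3 h4
    refine ih C F O (fun i hi => h1 i (by omega)) (fun i hi => h2 i (by omega))
      (fun i hi j hj hij => h3 i (by omega) j (by omega) hij) fun c hc => ?_
    refine WWin.round _ _ (O d) ?_ (h2 d (by omega)) fun e he => ?_
    · intro x hx
      rw [mem_sdiff, mem_biUnion]
      refine ⟨h1 d (by omega) hx, ?_⟩
      rintro ⟨i, hi, hxi⟩
      rw [mem_range] at hi
      exact Finset.disjoint_left.1 (h3 i (by omega) d (by omega) (by omega)) hxi hx
    · have h5 := h4 (Function.update c d e) (fun i hi => by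
        by_cases hid : i = d
        · subst hid
          rw [Function.update_self]
          exact he
        · rw [Function.update_of_ne hid]
          exact hc i (by omega))
      have e1 : (range (d + 1)).image (Function.update c d e) = insert e ((range d).image c) := by
        rw [Finset.range_add_one, Finset.image_insert, Function.update_self]
        congr 1
        refine Finset.image_congr fun i hi => ?_
        rw [coe_range, Set.mem_Iio] at hi
        exact Function.update_of_ne (by omega) _ _
      have e2 : (range (d + 1)).biUnion O = (range d).biUnion O ∪ O d := by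
        rw [Finset.range_add_one, Finset.biUnion_insert, Finset.union_comm]
      have e3 : F \ ((range d).biUnion O ∪ O d) = (F \ (range d).biUnion O) \ O d := by
        ext x
        simp only [mem_sdiff, mem_union, not_or, and_assoc]
      rw [e1, e2, Finset.union_insert, e3] at h5
      exact h5

end General

variable {n : ℕ}

/-- The number of edges of `C` at `v`. -/
def dg (C : Finset (Sym2 (Fin n))) (v : Fin n) : ℕ := (C.filter fun e => v ∈ e).card

/-- Minimum degree at least `k`. -/
def MinDeg (k : ℕ) (C : Finset (Sym2 (Fin n))) : Prop := ∀ v, k ≤ dg C v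

/-- The edges of the complete graph. -/
def edges (n : ℕ) : Finset (Sym2 (Fin n)) := univ.filter fun e => ¬ e.IsDiag

/-- Waiter wins the `(q : 1)` Waiter-Client game on `E(K_n)` for the property of minimum degree at least `k`. -/
def WaiterWins (n q k : ℕ) : Prop := WWin q (MinDeg k) ∅ (edges n)

theorem dg_mono {C D : Finset (Sym2 (Fin n))} (h : C ⊆ D) (v : Fin n) : dg C v ≤ dg D v :=
  Finset.card_le_card (Finset.filter_subset_filter _ h)

theorem MinDeg.insert {k : ℕ} (C : Finset (Sym2 (Fin n))) (e : Sym2 (Fin n)) (h : MinDeg k C) : MinDeg k (insert e C) :=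
  fun v => (h v).trans (dg_mono (Finset.subset_insert e C) v)

theorem WWin.of_minDeg {q k : ℕ} {C F : Finset (Sym2 (Fin n))} (h : MinDeg k C) : WWin q (MinDeg k) C F :=
  WWin.of_prop (fun C e => MinDeg.insert C e) _ C F rfl h

/-- The star with centre `v` and leaves `S`. -/
def star (v : Fin n) (S : Finset (Fin n)) : Finset (Sym2 (Fin n)) := S.image fun z => s(v, z)

theorem star_inj (v : Fin n) : Function.Injective fun z : Fin n => s(v, z) := by
  intro x y h
  have : s(v, x) = s(v, y) := h
  rw [Sym2.eq_iff] at this
  rcases this with h | h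
  · exact h.2
  · exact h.2.trans h.1

theorem mem_star {v : Fin n} {S : Finset (Fin n)} {e : Sym2 (Fin n)} : e ∈ star v S ↔ ∃ z ∈ S, s(v, z) = e := by
  rw [star, mem_image]

theorem mem_star' {v z : Fin n} {S : Finset (Fin n)} : s(v, z) ∈ star v S ↔ z ∈ S := by
  rw [mem_star]
  constructor
  · rintro ⟨x, hx, h⟩
    rwa [← star_inj v h]
  · exact fun h => ⟨z, h, rfl⟩

theorem card_star (v : Fin n) (S : Finset (Fin n)) : (star v S).card = S.card :=
  Finset.card_image_of_injective _ (star_inj v)

theorem star_disjoint {v : Fin n} {S T : Finset (Fin n)} (h : Disjoint S T) : Disjoint (star v S) (star v T) := by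
  rw [Finset.disjoint_left] at h ⊢
  intro e he
  rw [mem_star] at he
  obtain ⟨z, hz, rfl⟩ := he
  rw [mem_star']
  exact h hz

/-- Waiter offers `d` disjoint stars with the centre `v`. -/
theorem WWin.stars {q : ℕ} {P : Finset (Sym2 (Fin n)) → Prop} (v : Fin n) (d : ℕ) (C F : Finset (Sym2 (Fin n)))
    (G : ℕ → Finset (Fin n)) (h1 : ∀ i < d, ∀ z ∈ G i, s(v, z) ∈ F) (h2 : ∀ i < d, (G i).card = q + 1)
    (h3 : ∀ i < d, ∀ j < d, i ≠ j → Disjoint (G i) (G j))
    (h4 : ∀ w : ℕ → Fin n, (∀ i < d, w i ∈ G i) →
      WWin q P (C ∪ (range d).image fun i => s(v, w i)) (F \ star v ((range d).biUnion G))) : WWin q P C F := by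
  have : Nonempty (Sym2 (Fin n)) := ⟨s(v, v)⟩
  refine WWin.offers d C F (fun i => star v (G i)) ?_ ?_ ?_ ?_
  · intro i hi e he
    obtain ⟨z, hz, rfl⟩ := mem_star.1 he
    exact h1 i hi z hz
  · intro i hi
    rw [card_star]
    exact h2 i hi
  · intro i hi j hj hij
    exact star_disjoint (h3 i hi j hj hij)
  · intro c hc
    have hex : ∀ i, ∃ z, i < d → z ∈ G i ∧ s(v, z) = c i := by
      intro i
      by_cases hi : i < d
      · obtain ⟨z, hz, hz'⟩ := mem_star.1 (hc i hi)
        exact ⟨z, fun _ => ⟨hz, hz'⟩⟩
      · exact ⟨v, fun h => absurd h hi⟩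
    choose w hw using hex
    have h5 := h4 w fun i hi => (hw i hi).1
    have e1 : (range d).image (fun i => s(v, w i)) = (range d).image c := by
      refine Finset.image_congr fun i hi => ?_
      rw [coe_range, Set.mem_Iio] at hi
      exact (hw i hi).2
    have e2 : star v ((range d).biUnion G) = (range d).biUnion fun i => star v (G i) := by
      ext e
      rw [mem_star, mem_biUnion]
      constructor
      · rintro ⟨z, hz, rfl⟩
        obtain ⟨i, hi, hz⟩ := mem_biUnion.1 hz
        exact ⟨i, hi, mem_star'.2 hz⟩
      · rintro ⟨i, hi, he⟩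
        obtain ⟨z, hz, rfl⟩ := mem_star.1 he
        exact ⟨z, mem_biUnion.2 ⟨i, hi, hz⟩, rfl⟩
    rw [e1, e2] at h5
    exact h5

end Pool.Agent.Helper68.WC
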