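import Pool.Agent.Helper68.WC.Visit

/-!
# Waiter's strategy from a system of distinct representatives (MP_f3ca85_co)

If for every set `X` of active vertices there are at least `m * (missing degrees of X)` free edges which touch `X`, then by
Hall's theorem every active vertex `v` gets `m * (k - deg v)` free edges of its own; Waiter offers them in groups of `m`.
-/

set_option autoImplicit false

namespace Pool.Agent.Helper68.WC

open Finset

/-- Waiter may offer a family of disjoint sets. -/
theorem WWin.offers' {E : Type} [DecidableEq E] [Nonempty E] {q : ℕ} {P : Finset E → Prop} {κ : Type} [Fintype κ]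
    (C F : Finset E) (O : κ → Finset E) (h1 : ∀ i, O i ⊆ F) (h2 : ∀ i, (O i).card = q + 1)
    (h3 : ∀ i j, i ≠ j → Disjoint (O i) (O j))
    (h4 : ∀ c : κ → E, (∀ i, c i ∈ O i) → WWin q P (C ∪ univ.image c) (F \ univ.biUnion O)) : WWin q P C F := by
  classical
  let e : κ ≃ Fin (Fintype.card κ) := Fintype.equivFin κ
  let O' : ℕ → Finset E := fun t => if h : t < Fintype.card κ then O (e.symm ⟨t, h⟩) else ∅
  have hO' : ∀ t (h : t < Fintype.card κ), O' t = O (e.symm ⟨t, h⟩) := fun t h => dif_pos h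
  have hOe : ∀ i, O' (e i) = O i := fun i => by
    rw [hO' _ (e i).2]
    simp
  refine WWin.offers (Fintype.card κ) C F O' ?_ ?_ ?_ ?_
  · intro t ht
    rw [hO' t ht]
    exact h1 _
  · intro t ht
    rw [hO' t ht]
    exact h2 _
  · intro t ht s hs hts
    rw [hO' t ht, hO' s hs]
    refine h3 _ _ fun hc => hts ?_
    have := e.symm.injective hc
    exact congrArg Fin.val this
  · intro c hc
    have h5 := h4 (fun i => c (e i)) fun i => by
      have := hc (e i) (e i).2
      rwa [hOe] at this
    have e1 : (range (Fintype.card κ)).image c = univ.image fun i => c (e i) := by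
      ext x
      rw [mem_image, mem_image]
      constructor
      · rintro ⟨t, ht, rfl⟩
        exact ⟨e.symm ⟨t, mem_range.1 ht⟩, mem_univ _, by simp⟩
      · rintro ⟨i, -, rfl⟩
        exact ⟨e i, mem_range.2 (e i).2, rfl⟩
    have e2 : (range (Fintype.card κ)).biUnion O' = univ.biUnion O := by
      ext x
      rw [mem_biUnion, mem_biUnion]
      constructor
      · rintro ⟨t, ht, hx⟩
        rw [hO' t (mem_range.1 ht)] at hx
        exact ⟨_, mem_univ _, hx⟩
      · rintro ⟨i, -, hx⟩
        exact ⟨e i, mem_range.2 (e i).2, by rw [hOe]; exact hx⟩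
    rw [e1, e2]
    exact h5

variable {n : ℕ}

theorem win_hall {m k : ℕ} (hm : 0 < m) {C F : Finset (Sym2 (Fin n))} (hCF : Disjoint C F)
    (h : ∀ X : Finset (Fin n), X ⊆ act k C → ∑ v ∈ X, m * (k - dg C v) ≤ (F.filter fun e => ∃ v ∈ X, v ∈ e).card) :
    WWin (m - 1) (MinDeg k) C F := by
  classical
  by_cases hne : Nonempty (Sym2 (Fin n))
  swap
  · apply WWin.of_minDeg
    intro v
    exact absurd ⟨s(v, v)⟩ hne
  let D : Fin n → ℕ := fun v => k - dg C v
  let t : (Σ v : Fin n, Fin (m * D v)) → Finset (Sym2 (Fin n)) := fun p => F.filter fun e => p.1 ∈ e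
  have hall : ∀ s : Finset (Σ v : Fin n, Fin (m * D v)), s.card ≤ (s.biUnion t).card := by
    intro s
    let X : Finset (Fin n) := s.image Sigma.fst
    have hX : X ⊆ act k C := by
      intro v hv
      obtain ⟨p, hp, rfl⟩ := mem_image.1 hv
      rw [mem_act]
      have h1 : (p.2 : ℕ) < m * D p.1 := p.2.2
      by_contra hcon
      have h2 : D p.1 = 0 := by
        show k - dg C p.1 = 0
        omega
      have h3 : m * D p.1 = 0 := by rw [h2, Nat.mul_zero]
      exact absurd (lt_of_lt_of_eq h1 h3) (Nat.not_lt_zero _)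
    have h1 : s.card ≤ ∑ v ∈ X, m * D v := by
      calc s.card ≤ (X.sigma fun v => (univ : Finset (Fin (m * D v)))).card := by
            apply Finset.card_le_card
            intro p hp
            rw [Finset.mem_sigma]
            exact ⟨mem_image_of_mem _ hp, mem_univ _⟩
        _ = ∑ v ∈ X, m * D v := by
            rw [Finset.card_sigma]
            exact Finset.sum_congr rfl fun v _ => by rw [Finset.card_univ, Fintype.card_fin]
    refine h1.trans ((h X hX).trans (le_of_eq ?_))
    congr 1
    ext e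
    rw [mem_filter, mem_biUnion]
    constructor
    · rintro ⟨he, v, hv, hve⟩
      obtain ⟨p, hp, rfl⟩ := mem_image.1 hv
      exact ⟨p, hp, mem_filter.2 ⟨he, hve⟩⟩
    · rintro ⟨p, hp, he⟩
      have := mem_filter.1 he
      exact ⟨this.1, p.1, mem_image_of_mem _ hp, this.2⟩
  obtain ⟨f, hf1, hf2⟩ := (Finset.all_card_le_biUnion_card_iff_exists_injective t).1 hall
  have hlt : ∀ (v : Fin n) (i : Fin (D v)) (j : Fin m), (i : ℕ) * m + j < m * D v := by
    intro v i j
    have h1 := i.2
    have h2 := j.2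
    have h3 : ((i : ℕ) + 1) * m ≤ D v * m := Nat.mul_le_mul_right m h1
    rw [Nat.mul_comm m (D v)]
    nlinarith
  let g : (Σ v : Fin n, Fin (D v)) → Fin m → (Σ v : Fin n, Fin (m * D v)) := fun p j => ⟨p.1, ⟨(p.2 : ℕ) * m + j, hlt p.1 p.2 j⟩⟩
  have hg : ∀ p p' j j', g p j = g p' j' → p = p' ∧ j = j' := by
    rintro ⟨v, i⟩ ⟨v', i'⟩ j j' hgg
    have h1 : v = v' := congrArg Sigma.fst hgg
    subst h1
    have h2 : (⟨(i : ℕ) * m + j, hlt v i j⟩ : Fin (m * D v)) = ⟨(i' : ℕ) * m + j', hlt v i' j'⟩ := eq_of_heq (Sigma.mk.inj hgg).2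
    have h3 : (i : ℕ) * m + j = (i' : ℕ) * m + j' := congrArg Fin.val h2
    have h4 : (i : ℕ) = i' := by
      have e1 : ((i : ℕ) * m + j) / m = i := by
        rw [Nat.mul_comm, Nat.mul_add_div hm, Nat.div_eq_of_lt j.2, Nat.add_zero]
      have e2 : ((i' : ℕ) * m + j') / m = i' := by
        rw [Nat.mul_comm, Nat.mul_add_div hm, Nat.div_eq_of_lt j'.2, Nat.add_zero]
      rw [← e1, ← e2, h3]
    have h5 : (j : ℕ) = j' := by
      rw [h4] at h3
      omega
    exact ⟨by rw [Fin.ext h4], Fin.ext h5⟩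
  let O : (Σ v : Fin n, Fin (D v)) → Finset (Sym2 (Fin n)) := fun p => univ.image fun j => f (g p j)
  have hO : ∀ p e, e ∈ O p → e ∈ F ∧ p.1 ∈ e := by
    intro p e he
    obtain ⟨j, -, rfl⟩ := mem_image.1 he
    have := hf2 (g p j)
    exact mem_filter.1 this
  have hdis : ∀ p p', p ≠ p' → Disjoint (O p) (O p') := by
    intro p p' hne
    rw [Finset.disjoint_left]
    intro e he he'
    obtain ⟨j, -, rfl⟩ := mem_image.1 he
    obtain ⟨j', -, hj'⟩ := mem_image.1 he'
    exact hne (hg p p' j j' (hf1 hj'.symm)).1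
  refine WWin.offers' C F O (fun p e he => (hO p e he).1) ?_ hdis ?_
  · intro p
    rw [Finset.card_image_of_injective, Finset.card_univ, Fintype.card_fin]
    · omega
    · intro j j' hjj
      exact (hg p p j j' (hf1 hjj)).2
  · intro c hc
    apply WWin.of_minDeg
    intro v
    have hcinj : Function.Injective fun i : Fin (D v) => c ⟨v, i⟩ := by
      intro i j hij
      by_contra hne
      have h1 : (⟨v, i⟩ : Σ v : Fin n, Fin (D v)) ≠ ⟨v, j⟩ := fun hc' => hne (eq_of_heq (Sigma.mk.inj hc').2)
      have hij' : c ⟨v, i⟩ = c ⟨v, j⟩ := hij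
      exact Finset.disjoint_left.1 (hdis _ _ h1) (hc ⟨v, i⟩) (hij' ▸ hc ⟨v, j⟩)
    have h1 : (C.filter (v ∈ ·)) ∪ (univ.image fun i : Fin (D v) => c ⟨v, i⟩) ⊆ (C ∪ univ.image c).filter (v ∈ ·) := by
      intro e he
      rcases mem_union.1 he with he | he
      · have := mem_filter.1 he
        exact mem_filter.2 ⟨mem_union_left _ this.1, this.2⟩
      · obtain ⟨i, -, rfl⟩ := mem_image.1 he
        exact mem_filter.2 ⟨mem_union_right _ (mem_image_of_mem _ (mem_univ _)), (hO _ _ (hc ⟨v, i⟩)).2⟩
    have h2 := Finset.card_le_card h1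
    rw [Finset.card_union_of_disjoint, Finset.card_image_of_injective _ hcinj, Finset.card_univ, Fintype.card_fin] at h2
    · have h3 : dg C v = (C.filter (v ∈ ·)).card := rfl
      have h4 : dg (C ∪ univ.image c) v = ((C ∪ univ.image c).filter (v ∈ ·)).card := rfl
      have h5 : D v = k - dg C v := rfl
      omega
    · rw [Finset.disjoint_left]
      intro e he he'
      obtain ⟨i, -, rfl⟩ := mem_image.1 he'
      exact Finset.disjoint_left.1 hCF (mem_filter.1 he).1 (hO _ _ (hc ⟨v, i⟩)).1

end Pool.Agent.Helper68.WC
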