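import Pool.Agent.Helper68.WC.Pot

/-!
# Waiter's strategy for large `k` (MP_f3ca85_co)
-/

set_option autoImplicit false

namespace Pool.Agent.Helper68.WC

open Finset

variable {n : ℕ}

theorem Inv.mono {m k : ℕ} {w : ℤ} {θ B B' : ℝ} {C F : Finset (Sym2 (Fin n))} (h : Inv m k w θ B C F) (hB : B ≤ B') :
    Inv m k w θ B' C F := ⟨h.dis, h.nd, h.fr, h.wal, h.pot.trans hB⟩

theorem win_inv {m k K : ℕ} (hm : 0 < m) (hK : 0 < K) {θ B ε1 ε2 : ℝ} (hθ : 0 ≤ θ) (hB0 : 0 ≤ B)
    (h1 : (Real.exp θ - 1) / K ≤ ε1) (h2 : (Real.exp θ - 1) - (Real.exp θ - Real.exp (θ - θ * m)) / m ≤ ε2) (h2' : 0 ≤ ε2)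
    (hB : B * (1 + ε1 + ε2) ^ n * Real.exp (θ * (((K + 1) * m : ℕ) + m)) ≤ m) :
    ∀ (a : ℕ) (C F : Finset (Sym2 (Fin n))), (act k C).card = a →
      Inv m k ((K + 1) * m : ℕ) θ (B * (1 + ε1 + ε2) ^ (n - a)) C F → WWin (m - 1) (MinDeg k) C F := by
  have ha : 0 ≤ Real.exp θ - 1 := by
    have := Real.one_le_exp hθ
    linarith
  have hε1 : 0 ≤ ε1 := (div_nonneg ha (Nat.cast_nonneg K)).trans h1
  have hx : 1 ≤ 1 + ε1 + ε2 := by linarith
  intro a
  induction a using Nat.strong_induction_on with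
  | _ a ih =>
    intro C F hC hI
    rcases Nat.eq_zero_or_pos a with h0 | h0
    · apply WWin.of_minDeg
      intro v
      by_contra hcon
      push Not at hcon
      have h3 : v ∈ act k C := mem_act.2 hcon
      have h4 := Finset.card_pos.2 ⟨v, h3⟩
      omega
    · have han : a ≤ n := by
        rw [← hC]
        exact (Finset.card_le_univ _).trans_eq (Fintype.card_fin n)
      have e1 : (1 + ε1 + ε2) * (B * (1 + ε1 + ε2) ^ (n - a)) = B * (1 + ε1 + ε2) ^ (n - a + 1) := by
        rw [pow_succ]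
        ring
      refine win_step hm hK hθ h1 h2 h2' hI (Finset.card_pos.1 (by omega)) ?_ fun C' F' hlt hI' => ?_
      · rw [e1]
        refine le_trans (mul_le_mul_of_nonneg_right ?_ (Real.exp_pos _).le) hB
        exact mul_le_mul_of_nonneg_left (pow_le_pow_right₀ hx (by omega)) hB0
      · refine ih (act k C').card (by omega) C' F' rfl (hI'.mono ?_)
        rw [e1]
        exact mul_le_mul_of_nonneg_left (pow_le_pow_right₀ hx (by omega)) hB0

theorem nb_edges (z : Fin n) : nb (edges n) z = univ.erase z := by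
  ext x
  rw [mem_nb, edges, mem_filter, mem_erase, Sym2.mk_isDiag_iff]
  simp [eq_comm]

theorem dg_edges (z : Fin n) : dg (edges n) z = n - 1 := by
  rw [dg_eq_nb, nb_edges, Finset.card_erase_of_mem (mem_univ z), Finset.card_univ, Fintype.card_fin]

/-- Waiter's strategy for large `k`. -/
theorem waiter_large {n q k r : ℕ} (hk : 0 < k) (hr : 0 < r) (hkr : k ≤ r ^ 2) (hn : n ≤ 2 * k * (q + 1))
    (h : ((q : ℝ) + 1) * (k + r * (9 + Real.log (2 * k)) + 2) ≤ n - 1) : WaiterWins n q k := by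
  set m := q + 1 with hm
  have hm0 : 0 < m := by omega
  have hmR : (0 : ℝ) < m := by exact_mod_cast hm0
  have hm1 : (1 : ℝ) ≤ m := by exact_mod_cast hm0
  have hrR : (0 : ℝ) < r := by exact_mod_cast hr
  have hr1 : (1 : ℝ) ≤ r := by exact_mod_cast hr
  have hkR : (1 : ℝ) ≤ k := by exact_mod_cast hk
  have hL : 0 ≤ Real.log (2 * k) := Real.log_nonneg (by linarith)
  have hmq : (m : ℝ) = q + 1 := by rw [hm]; push_cast; ring
  rw [← hmq] at h
  set lam : ℝ := 1 / r with hlam
  have hlam0 : 0 < lam := by positivity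
  have hlam1 : lam ≤ 1 := by rw [hlam, div_le_one hrR]; exact hr1
  set θ : ℝ := lam / m with hθ
  have hθ0 : 0 < θ := by positivity
  have hθ1 : θ ≤ 1 := by
    rw [hθ, div_le_one hmR]
    linarith
  have hθm : θ * m = lam := by rw [hθ]; field_simp
  have hexp1 : Real.exp θ - 1 ≤ θ + θ ^ 2 := by
    have := Real.abs_exp_sub_one_sub_id_le (x := θ) (by rw [abs_of_pos hθ0]; exact hθ1)
    have := (abs_le.1 this).2
    linarith
  have hexp2 : lam - lam ^ 2 ≤ 1 - Real.exp (-lam) := by
    have := Real.abs_exp_sub_one_sub_id_le (x := -lam) (by rw [abs_neg, abs_of_pos hlam0]; exact hlam1)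
    have := (abs_le.1 this).2
    nlinarith
  set ε : ℝ := 2 * lam ^ 2 / m with hε
  have hε0 : 0 ≤ ε := by positivity
  have h1 : (Real.exp θ - 1) / r ≤ ε := by
    have e1 : Real.exp θ - 1 ≤ 2 * θ := by nlinarith
    calc (Real.exp θ - 1) / r ≤ 2 * θ / r := div_le_div_of_nonneg_right e1 hrR.le
      _ = ε := by rw [hε, hθ, hlam]; field_simp
  have h2 : (Real.exp θ - 1) - (Real.exp θ - Real.exp (θ - θ * m)) / m ≤ ε := by
    have e1 : Real.exp (θ - θ * m) = Real.exp θ * Real.exp (-lam) := by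
      rw [← Real.exp_add, hθm]
      congr 1
    have e2 : lam - lam ^ 2 ≤ Real.exp θ - Real.exp (θ - θ * m) := by
      rw [e1]
      have e3 := Real.one_le_exp hθ0.le
      have e4 : 0 ≤ 1 - Real.exp (-lam) := by
        have : Real.exp (-lam) ≤ 1 := Real.exp_le_one_iff.2 (by linarith)
        linarith
      nlinarith
    have e5 : (lam - lam ^ 2) / m ≤ (Real.exp θ - Real.exp (θ - θ * m)) / m := div_le_div_of_nonneg_right e2 hmR.le
    have e6 : θ ^ 2 ≤ lam ^ 2 / m := by
      rw [hθ, div_pow]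
      apply div_le_div_of_nonneg_left (by positivity) hmR
      nlinarith
    have e7 : (lam - lam ^ 2) / m = θ - lam ^ 2 / m := by rw [hθ]; ring
    have e8 : ε = lam ^ 2 / m + lam ^ 2 / m := by rw [hε]; ring
    linarith
  -- the slack at the beginning
  set σ : ℝ := (n : ℝ) - 1 - m * k with hσ
  have hσ1 : m * (r + 2) + r * m * (8 + Real.log (2 * k)) ≤ σ := by rw [hσ]; nlinarith
  have hn1 : 1 ≤ n := by
    by_contra hcon
    have : n = 0 := by omega
    rw [this] at h
    push_cast at h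
    have : 0 ≤ (m : ℝ) * (k + r * (9 + Real.log (2 * k)) + 2) := by positivity
    linarith
  have hnR : (0 : ℝ) < n := by exact_mod_cast hn1
  have hmain : (n : ℝ) * Real.exp (-θ * σ) * (1 + ε + ε) ^ n * Real.exp (θ * (((r + 1) * m : ℕ) + m)) ≤ m := by
    have e1 : (1 + ε + ε) ^ n ≤ Real.exp 8 := by
      have e2 : 1 + ε + ε ≤ Real.exp (2 * ε) := by
        have := Real.add_one_le_exp (2 * ε)
        linarith
      calc (1 + ε + ε) ^ n ≤ (Real.exp (2 * ε)) ^ n := pow_le_pow_left₀ (by linarith) e2 n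
        _ = Real.exp (n * (2 * ε)) := by rw [← Real.exp_nat_mul]
        _ ≤ Real.exp 8 := Real.exp_le_exp.2 (by
          have e3 : (n : ℝ) ≤ 2 * k * m := by exact_mod_cast hn
          have e4 : (k : ℝ) ≤ r ^ 2 := by exact_mod_cast hkr
          have e5 : (n : ℝ) ≤ 2 * r ^ 2 * m := by nlinarith
          have e6 : (n : ℝ) * (2 * ε) = (n : ℝ) / (2 * r ^ 2 * m) * 8 := by
            rw [hε, hlam]
            field_simp
            ring
          rw [e6]
          have e7 : (n : ℝ) / (2 * r ^ 2 * m) ≤ 1 := by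
            rw [div_le_one (by positivity)]
            exact e5
          linarith)
    have e2 : Real.exp (-θ * σ) * Real.exp 8 * Real.exp (θ * (((r + 1) * m : ℕ) + m)) ≤ Real.exp (-Real.log (2 * k)) := by
      rw [← Real.exp_add, ← Real.exp_add]
      apply Real.exp_le_exp.2
      push_cast
      have e3 : θ * (r * m * (8 + Real.log (2 * k))) = 8 + Real.log (2 * k) := by
        have e4 : θ * (r * m) = 1 := by rw [hθ, hlam]; field_simp
        rw [← mul_assoc, e4, one_mul]
      have e5 : θ * (m * (r + 2) + r * m * (8 + Real.log (2 * k))) ≤ θ * σ := mul_le_mul_of_nonneg_left hσ1 hθ0.le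
      nlinarith
    have e3 : Real.exp (-Real.log (2 * k)) = 1 / (2 * k) := by
      rw [Real.exp_neg, Real.exp_log (by linarith)]
      simp
    calc (n : ℝ) * Real.exp (-θ * σ) * (1 + ε + ε) ^ n * Real.exp (θ * (((r + 1) * m : ℕ) + m)) ≤
        (n : ℝ) * Real.exp (-θ * σ) * Real.exp 8 * Real.exp (θ * (((r + 1) * m : ℕ) + m)) := by
          apply mul_le_mul_of_nonneg_right _ (Real.exp_pos _).le
          exact mul_le_mul_of_nonneg_left e1 (by positivity)
      _ = n * (Real.exp (-θ * σ) * Real.exp 8 * Real.exp (θ * (((r + 1) * m : ℕ) + m))) := by ring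
      _ ≤ n * (1 / (2 * k)) := by
          rw [← e3]
          exact mul_le_mul_of_nonneg_left e2 hnR.le
      _ ≤ m := by
          have e4 : (n : ℝ) ≤ 2 * k * m := by exact_mod_cast hn
          rw [mul_one_div, div_le_iff₀ (by linarith)]
          linarith
  have hact : act k (∅ : Finset (Sym2 (Fin n))) = univ := by
    ext z
    rw [mem_act]
    simp [dg, hk]
  have hsg : ∀ z : Fin n, ((sg m k (∅ : Finset (Sym2 (Fin n))) (edges n) z : ℤ) : ℝ) = σ := by
    intro z
    rw [sg, dg_edges, hσ]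
    simp only [dg, Finset.filter_empty, Finset.card_empty]
    push_cast [Nat.cast_sub hn1]
    ring
  have key := win_inv (n := n) (m := m) (k := k) (K := r) hm0 hr (θ := θ) (B := n * Real.exp (-θ * σ)) (ε1 := ε) (ε2 := ε)
    hθ0.le (by positivity) h1 h2 hε0 hmain n ∅ (edges n) (by rw [hact, Finset.card_univ, Fintype.card_fin])
    ⟨Finset.disjoint_empty_left _, fun e he => (mem_filter.1 he).2, ?_, ?_, ?_⟩
  · exact key
  · intro x _ y _ hxy
    rw [edges, mem_filter, Sym2.mk_isDiag_iff]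
    exact ⟨mem_univ _, hxy⟩
  · intro t ht
    rw [Finset.card_eq_zero.2]
    · exact Nat.zero_le t
    · rw [Finset.filter_eq_empty_iff]
      intro z _ hz
      have e1 : ((sg m k (∅ : Finset (Sym2 (Fin n))) (edges n) z : ℤ) : ℝ) ≤ (((r + 1) * m : ℕ) : ℝ) + t := by exact_mod_cast hz
      rw [hsg] at e1
      push_cast at e1
      have e2 : (t : ℝ) ≤ m := by exact_mod_cast ht
      have e3 : 0 < r * m * (8 + Real.log (2 * k)) := by positivity
      nlinarith
  · rw [hact, Nat.sub_self, pow_zero, mul_one]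
    rw [Finset.sum_congr rfl fun z _ => by rw [hsg z], Finset.sum_const, Finset.card_univ, Fintype.card_fin, nsmul_eq_mul]

end Pool.Agent.Helper68.WC
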