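import Pool.Agent.Helper68.WC.Visit

/-!
# The strategy with a potential (MP_f3ca85_co)
-/

set_option autoImplicit false

namespace Pool.Agent.Helper68.WC

open Finset

variable {n : ℕ}

/-- One visit: Waiter wins from a position with the invariants if he wins from the positions with fewer active vertices and the
invariants for `(1 + ε1 + ε2) B`. -/
theorem win_step {m k K : ℕ} (hm : 0 < m) (hK : 0 < K) {θ B ε1 ε2 : ℝ} (hθ : 0 ≤ θ)
    (h1 : (Real.exp θ - 1) / K ≤ ε1) (h2 : (Real.exp θ - 1) - (Real.exp θ - Real.exp (θ - θ * m)) / m ≤ ε2) (h2' : 0 ≤ ε2)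
    {C F : Finset (Sym2 (Fin n))} (hI : Inv m k ((K + 1) * m : ℕ) θ B C F) (hne : (act k C).Nonempty)
    (hB : (1 + ε1 + ε2) * B * Real.exp (θ * (((K + 1) * m : ℕ) + m)) ≤ m)
    (ih : ∀ C' F' : Finset (Sym2 (Fin n)), (act k C').card < (act k C).card →
      Inv m k ((K + 1) * m : ℕ) θ ((1 + ε1 + ε2) * B) C' F' → WWin (m - 1) (MinDeg k) C' F') :
    WWin (m - 1) (MinDeg k) C F := by
  classical
  have hm1 : m - 1 + 1 = m := by omega
  -- the active vertex with the least slack
  obtain ⟨v, hv, hvmin⟩ := Finset.exists_min_image (act k C) (sg m k C F) hne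
  have : Nonempty (Fin n) := ⟨v⟩
  have hvk : dg C v < k := mem_act.1 hv
  obtain ⟨d, hd⟩ : ∃ d, dg C v + d = k := ⟨k - dg C v, by omega⟩
  have hd0 : 0 < d := by omega
  set T := (act k C).erase v with hT
  have hvT : v ∉ T := Finset.notMem_erase v _
  set Ni := (nb F v) \ (act k C) with hNi
  -- the free neighbours of `v`
  have hvn : v ∉ nb F v := fun h => hI.nd _ (mem_nb.1 h) (by simp)
  have hnb : nb F v = Ni ∪ T := by
    ext z
    rw [hNi, hT, mem_union, mem_sdiff, mem_erase]
    constructor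
    · intro hz
      by_cases hz' : z ∈ act k C
      · exact Or.inr ⟨fun h => hvn (h ▸ hz), hz'⟩
      · exact Or.inl ⟨hz, hz'⟩
    · rintro (h | h)
      · exact h.1
      · exact mem_nb.2 (hI.fr v hv z h.2 (Ne.symm h.1))
  have hdisj : Disjoint Ni T := by
    rw [Finset.disjoint_left]
    intro z hz hz'
    exact (mem_sdiff.1 hz).2 (mem_of_mem_erase hz')
  have hdF : dg F v = Ni.card + T.card := by
    rw [dg_eq_nb, hnb, Finset.card_union_of_disjoint hdisj]
  -- the slack of `v`
  have hsv : (((K + 1) * m : ℕ) : ℤ) < sg m k C F v := by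
    by_contra hcon
    push Not at hcon
    have h3 := hI.wal 0 (Nat.zero_le m)
    have h4 : v ∈ (act k C).filter fun z => sg m k C F z ≤ (((K + 1) * m : ℕ) : ℤ) + ((0 : ℕ) : ℤ) := by
      rw [mem_filter]
      exact ⟨hv, by simpa using hcon⟩
    have h5 := Finset.card_pos.2 ⟨v, h4⟩
    omega
  have hsv' : (K + 1) * m + m * d < Ni.card + T.card := by
    have h3 : sg m k C F v = (dg F v : ℤ) - m * d := by
      rw [sg, ← hd]
      push_cast
      ring
    rw [h3, hdF] at hsv
    push_cast at hsv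
    have h4 : ((K + 1) * m + m * d : ℤ) < Ni.card + T.card := by linarith
    exact_mod_cast h4
  -- numbers of groups
  obtain ⟨d1, d2, hd12, hd1, hd2⟩ : ∃ d1 d2 : ℕ, d1 + d2 = d ∧ d1 * m ≤ Ni.card ∧
      (0 < d2 → (K + d2) * m ≤ T.card + m) := by
    by_cases hle : d * m ≤ Ni.card
    · exact ⟨d, 0, by omega, hle, fun h => absurd h (by omega)⟩
    · have h3 := Nat.div_add_mod Ni.card m
      have h4 := Nat.mod_lt Ni.card hm
      have h5 : Ni.card / m ≤ d := by
        by_contra hcon
        push Not at hcon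
        apply hle
        calc d * m ≤ (Ni.card / m) * m := Nat.mul_le_mul_right m hcon.le
          _ ≤ Ni.card := Nat.div_mul_le_self _ _
      obtain ⟨d2, hd2⟩ := Nat.exists_eq_add_of_le h5
      refine ⟨Ni.card / m, d2, hd2.symm, Nat.div_mul_le_self _ _, fun _ => ?_⟩
      rw [hd2] at hsv'
      nlinarith
  -- the groups
  obtain ⟨G1, g1, g2, g3⟩ := exists_groups Ni hd1
  have ha : 0 ≤ Real.exp θ - 1 := by
    have := Real.one_le_exp hθ
    linarith
  have hc : 0 ≤ Real.exp θ - Real.exp (θ - θ * m) := by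
    have : Real.exp (θ - θ * m) ≤ Real.exp θ := Real.exp_le_exp.2 (by
      have : 0 ≤ θ * m := mul_nonneg hθ (Nat.cast_nonneg m)
      linarith)
    linarith
  obtain ⟨G2, g4, g5, g6, g7⟩ := select T (fun z => Real.exp (-θ * sg m k C F z)) (fun z _ => (Real.exp_pos _).le) hm hK hd2
    ha hc h1 h2 h2'
  set G : ℕ → Finset (Fin n) := fun i => if i < d1 then G1 i else G2 (i - d1) with hG
  have hG1 : ∀ i < d1, G i = G1 i := fun i hi => if_pos hi
  have hG2 : ∀ i < d2, G (d1 + i) = G2 i := fun i hi => by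
    simp only [hG]
    rw [if_neg (by omega)]
    congr 1
    omega
  have hsplit : ∀ i < d, i < d1 ∨ ∃ j < d2, i = d1 + j := fun i hi => by
    by_cases h : i < d1
    · exact Or.inl h
    · exact Or.inr ⟨i - d1, by omega, by omega⟩
  have hGnb : ∀ i < d, G i ⊆ nb F v := by
    intro i hi
    rcases hsplit i hi with h | ⟨j, hj, rfl⟩
    · rw [hG1 i h, hnb]
      exact (g1 i h).trans Finset.subset_union_left
    · rw [hG2 j hj, hnb]
      exact (g4 j hj).trans Finset.subset_union_right
  have hGc : ∀ i < d, (G i).card = m - 1 + 1 := by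
    intro i hi
    rw [hm1]
    rcases hsplit i hi with h | ⟨j, hj, rfl⟩
    · rw [hG1 i h, g2 i h]
    · rw [hG2 j hj, g5 j hj]
  have hGd : ∀ i < d, ∀ j < d, i ≠ j → Disjoint (G i) (G j) := by
    intro i hi j hj hij
    rcases hsplit i hi with h | ⟨i', hi', rfl⟩ <;> rcases hsplit j hj with h' | ⟨j', hj', rfl⟩
    · rw [hG1 i h, hG1 j h']
      exact g3 i h j h' hij
    · rw [hG1 i h, hG2 j' hj']
      exact Finset.disjoint_of_subset_left (g1 i h) (Finset.disjoint_of_subset_right (g4 j' hj') hdisj)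
    · rw [hG1 j h', hG2 i' hi']
      exact (Finset.disjoint_of_subset_left (g1 j h') (Finset.disjoint_of_subset_right (g4 i' hi') hdisj)).symm
    · rw [hG2 i' hi', hG2 j' hj']
      exact g6 i' hi' j' hj' (by omega)
  refine WWin.stars v d C F G (fun i hi z hz => mem_nb.1 (hGnb i hi hz)) hGc hGd fun w hw => ?_
  set U := (range d).biUnion G with hU
  set W := (range d).image w with hW
  have hWeq : ((range d).image fun i => s(v, w i)) = star v W := by
    rw [star, hW, Finset.image_image]
    rfl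
  rw [hWeq]
  have hUnb : U ⊆ nb F v := by
    intro z hz
    obtain ⟨i, hi, hz⟩ := mem_biUnion.1 hz
    exact hGnb i (mem_range.1 hi) hz
  have hUF : star v U ⊆ F := by
    intro e he
    obtain ⟨z, hz, rfl⟩ := mem_star.1 he
    exact mem_nb.1 (hUnb hz)
  have hWU : W ⊆ U := by
    intro z hz
    obtain ⟨i, hi, rfl⟩ := mem_image.1 hz
    exact mem_biUnion.2 ⟨i, hi, hw i (mem_range.1 hi)⟩
  have hwinj : ∀ i < d, ∀ j < d, w i = w j → i = j := by
    intro i hi j hj hij
    by_contra hne
    exact Finset.disjoint_left.1 (hGd i hi j hj hne) (hw i hi) (hij ▸ hw j hj)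
  have hWc : W.card = d := by
    rw [hW, Finset.card_image_of_injOn, card_range]
    intro x hx y hy hxy
    rw [coe_range, Set.mem_Iio] at hx hy
    exact hwinj x hx y hy hxy
  have hsub : act k (C ∪ star v W) ⊆ T := act_visit hI.dis hUF hWU (by omega)
  -- the potential
  have hTU : T.filter (· ∈ U) = (range d2).biUnion G2 := by
    ext z
    rw [mem_filter, hU, mem_biUnion, mem_biUnion]
    constructor
    · rintro ⟨hz, i, hi, hzi⟩
      rcases hsplit i (mem_range.1 hi) with h | ⟨j, hj, rfl⟩
      · rw [hG1 i h] at hzi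
        exact absurd hz (Finset.disjoint_left.1 hdisj (g1 i h hzi))
      · rw [hG2 j hj] at hzi
        exact ⟨j, mem_range.2 hj, hzi⟩
    · rintro ⟨j, hj, hzj⟩
      rw [mem_range] at hj
      refine ⟨g4 j hj hzj, d1 + j, mem_range.2 (by omega), ?_⟩
      rw [hG2 j hj]
      exact hzj
  have hTW : T.filter (· ∈ W) = (range d2).image fun i => w (d1 + i) := by
    ext z
    rw [mem_filter, hW, mem_image, mem_image]
    constructor
    · rintro ⟨hz, i, hi, rfl⟩
      rw [mem_range] at hi
      have hzi := hw i hi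
      rcases hsplit i hi with h | ⟨j, hj, rfl⟩
      · rw [hG1 i h] at hzi
        exact absurd hz (Finset.disjoint_left.1 hdisj (g1 i h hzi))
      · exact ⟨j, mem_range.2 hj, rfl⟩
    · rintro ⟨j, hj, rfl⟩
      rw [mem_range] at hj
      have hzj := hw (d1 + j) (by omega)
      rw [hG2 j hj] at hzj
      exact ⟨g4 j hj hzj, d1 + j, mem_range.2 (by omega), rfl⟩
  have hpot : ∑ z ∈ T, Real.exp (-θ * sg m k (C ∪ star v W) (F \ star v U) z) ≤ (1 + ε1 + ε2) * B := by
    rw [pot_visit hI.dis hUF hWU θ T hvT, hTU, hTW, Finset.sum_image]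
    · refine (g7 (fun i => w (d1 + i)) fun i hi => ?_).trans ?_
      · have := hw (d1 + i) (by omega)
        rwa [hG2 i hi] at this
      · have hε1 : 0 ≤ ε1 := (div_nonneg ha (Nat.cast_nonneg K)).trans h1
        refine mul_le_mul_of_nonneg_left ?_ (by linarith)
        refine le_trans ?_ hI.pot
        exact Finset.sum_le_sum_of_subset_of_nonneg (Finset.erase_subset v _) (fun z _ _ => (Real.exp_pos _).le)
    · intro x hx y hy hxy
      rw [coe_range, Set.mem_Iio] at hx hy
      have := hwinj (d1 + x) (by omega) (d1 + y) (by omega) hxy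
      omega
  have hpot' : ∑ z ∈ act k (C ∪ star v W), Real.exp (-θ * sg m k (C ∪ star v W) (F \ star v U) z) ≤ (1 + ε1 + ε2) * B :=
    (Finset.sum_le_sum_of_subset_of_nonneg hsub (fun z _ _ => (Real.exp_pos _).le)).trans hpot
  refine ih _ _ ?_ ⟨?_, ?_, ?_, ?_, hpot'⟩
  · calc (act k (C ∪ star v W)).card ≤ T.card := Finset.card_le_card hsub
      _ < (act k C).card := Finset.card_erase_lt_of_mem hv
  · rw [Finset.disjoint_union_left]
    constructor
    · exact Finset.disjoint_of_subset_right Finset.sdiff_subset hI.dis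
    · rw [Finset.disjoint_left]
      intro e he he'
      obtain ⟨z, hz, rfl⟩ := mem_star.1 he
      exact (mem_sdiff.1 he').2 (mem_star'.2 (hWU hz))
  · intro e he
    exact hI.nd e (mem_sdiff.1 he).1
  · intro x hx y hy hxy
    have hx' := mem_erase.1 (hsub hx)
    have hy' := mem_erase.1 (hsub hy)
    rw [mem_sdiff]
    refine ⟨hI.fr x hx'.2 y hy'.2 hxy, fun hc => ?_⟩
    obtain ⟨z, hz, hze⟩ := mem_star.1 hc
    have h3 : v ∈ s(x, y) := hze ▸ Sym2.mem_mk_left v z
    rcases Sym2.mem_iff.1 h3 with h4 | h4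
    · exact hx'.1 h4.symm
    · exact hy'.1 h4.symm
  · intro t ht
    have hslack : ∀ z ∈ T, sg m k C F z - 1 ≤ sg m k (C ∪ star v W) (F \ star v U) z := by
      intro z hz
      rw [sg_visit hI.dis hUF hWU (mem_erase.1 hz).1]
      have h3 : (if z ∈ U then (1 : ℤ) else 0) ≤ 1 := by split_ifs <;> simp
      have h4 : (0 : ℤ) ≤ (if z ∈ W then (m : ℤ) else 0) := by split_ifs <;> simp
      linarith
    rcases Nat.lt_or_ge t m with htm | htm
    · have h3 : ((act k (C ∪ star v W)).filter fun z => sg m k (C ∪ star v W) (F \ star v U) z ≤ (((K + 1) * m : ℕ) : ℤ) + t) ⊆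
          ((act k C).filter fun z => sg m k C F z ≤ (((K + 1) * m : ℕ) : ℤ) + ((t + 1 : ℕ) : ℤ)).erase v := by
        intro z hz
        rw [mem_filter] at hz
        have h4 := hsub hz.1
        rw [mem_erase, mem_filter]
        refine ⟨(mem_erase.1 h4).1, (mem_erase.1 h4).2, ?_⟩
        have h5 := hslack z h4
        have h6 := hz.2
        push_cast at h6 ⊢
        linarith
      have h4 := hI.wal (t + 1) htm
      rcases Finset.eq_empty_or_nonempty ((act k (C ∪ star v W)).filter fun z =>
        sg m k (C ∪ star v W) (F \ star v U) z ≤ (((K + 1) * m : ℕ) : ℤ) + t) with h5 | ⟨z, hz⟩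
      · rw [h5]
        simp
      · have h6 := h3 hz
        rw [mem_erase, mem_filter] at h6
        have h7 : v ∈ (act k C).filter fun z => sg m k C F z ≤ (((K + 1) * m : ℕ) : ℤ) + ((t + 1 : ℕ) : ℤ) := by
          rw [mem_filter]
          exact ⟨hv, (hvmin z h6.2.1).trans h6.2.2⟩
        have h8 := Finset.card_le_card h3
        rw [Finset.card_erase_of_mem h7] at h8
        omega
    · have htm' : t = m := le_antisymm ht htm
      subst htm'
      set A := (act k (C ∪ star v W)).filter fun z =>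
        sg t k (C ∪ star v W) (F \ star v U) z ≤ (((K + 1) * t : ℕ) : ℤ) + t with hA
      have h3 : (A.card : ℝ) * Real.exp (-θ * (((K + 1) * t : ℕ) + t)) ≤ (1 + ε1 + ε2) * B := by
        calc (A.card : ℝ) * Real.exp (-θ * (((K + 1) * t : ℕ) + t)) =
            ∑ z ∈ A, Real.exp (-θ * (((K + 1) * t : ℕ) + t)) := by rw [Finset.sum_const, nsmul_eq_mul]
          _ ≤ ∑ z ∈ A, Real.exp (-θ * sg t k (C ∪ star v W) (F \ star v U) z) := by
            refine Finset.sum_le_sum fun z hz => Real.exp_le_exp.2 ?_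
            have h4 : ((sg t k (C ∪ star v W) (F \ star v U) z : ℤ) : ℝ) ≤ (((K + 1) * t : ℕ) : ℝ) + t := by
              exact_mod_cast (mem_filter.1 hz).2
            nlinarith
          _ ≤ ∑ z ∈ act k (C ∪ star v W), Real.exp (-θ * sg t k (C ∪ star v W) (F \ star v U) z) :=
            Finset.sum_le_sum_of_subset_of_nonneg (Finset.filter_subset _ _) (fun z _ _ => (Real.exp_pos _).le)
          _ ≤ _ := hpot'
      have h4 : (A.card : ℝ) ≤ t := by
        calc (A.card : ℝ) = (A.card : ℝ) * Real.exp (-θ * (((K + 1) * t : ℕ) + t)) *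
            Real.exp (θ * (((K + 1) * t : ℕ) + t)) := by
              rw [mul_assoc, ← Real.exp_add]
              simp
          _ ≤ (1 + ε1 + ε2) * B * Real.exp (θ * (((K + 1) * t : ℕ) + t)) :=
            mul_le_mul_of_nonneg_right h3 (Real.exp_pos _).le
          _ ≤ t := hB
      exact_mod_cast h4

end Pool.Agent.Helper68.WC
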