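import Mathlib

/-!
# Choice of the groups of leaves (MP_f3ca85_co)

A finite set `T` with weights `b` is ordered by decreasing weight and cut into consecutive groups of `m` elements. Among the
first `K` groups we choose one whose weight is at most `1/K` of the total weight, and we offer `d` consecutive groups from
there on. The weight of the offered elements increases by the factor `1 + a`, except for one element of each group, from
which `c` times the weight is taken off. The total weight is then multiplied by at most `1 + ε1 + ε2`.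
-/

set_option autoImplicit false

namespace Pool.Agent.Helper68.WC

open Finset

/-- Enumeration of a finite set by decreasing weight. -/
theorem exists_enum {α : Type} [Nonempty α] (T : Finset α) (b : α → ℝ) :
    ∃ f : ℕ → α, (∀ i < T.card, f i ∈ T) ∧ (∀ i < T.card, ∀ j < T.card, f i = f j → i = j) ∧
      (∀ i < T.card, ∀ j < T.card, i ≤ j → b (f j) ≤ b (f i)) := by
  classical
  let e0 : Fin T.card ≃ T := T.equivFin.symm
  let g : Fin T.card → ℝ := fun i => -b (e0 i)
  let σ := Tuple.sort g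
  have hσ : Monotone (g ∘ σ) := Tuple.monotone_sort g
  refine ⟨fun i => if h : i < T.card then (e0 (σ ⟨i, h⟩) : α) else Classical.arbitrary α, ?_, ?_, ?_⟩
  · intro i hi
    simp only [dif_pos hi]
    exact (e0 (σ ⟨i, hi⟩)).2
  · intro i hi j hj hij
    simp only [dif_pos hi, dif_pos hj] at hij
    have h1 := e0.injective (Subtype.ext hij)
    have h2 := σ.injective h1
    exact congrArg Fin.val h2
  · intro i hi j hj hij
    simp only [dif_pos hi, dif_pos hj]
    have h1 : (g ∘ σ) ⟨i, hi⟩ ≤ (g ∘ σ) ⟨j, hj⟩ := hσ (Fin.mk_le_mk.2 hij)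
    have h2 : -b (e0 (σ ⟨i, hi⟩)) ≤ -b (e0 (σ ⟨j, hj⟩)) := h1
    linarith

/-- The `j`-th group of `m` elements in the enumeration `f`. -/
def grp {α : Type} [DecidableEq α] (f : ℕ → α) (m j : ℕ) : Finset α := (Ico (j * m) ((j + 1) * m)).image f

section

variable {α : Type} [DecidableEq α] {f : ℕ → α} {N m : ℕ} (hinj : ∀ i < N, ∀ j < N, f i = f j → i = j)

include hinj

theorem card_grp {j : ℕ} (hj : (j + 1) * m ≤ N) : (grp f m j).card = m := by
  rw [grp, Finset.card_image_of_injOn, Nat.card_Ico]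
  · rw [Nat.add_mul, one_mul]
    omega
  · intro x hx y hy hxy
    rw [coe_Ico, Set.mem_Ico] at hx hy
    exact hinj x (by omega) y (by omega) hxy

theorem grp_disjoint {i j : ℕ} (hi : (i + 1) * m ≤ N) (hj : (j + 1) * m ≤ N) (hij : i ≠ j) :
    Disjoint (grp f m i) (grp f m j) := by
  rw [Finset.disjoint_left]
  intro x hx hx'
  rw [grp, mem_image] at hx hx'
  obtain ⟨a, ha, rfl⟩ := hx
  obtain ⟨c, hc, hca⟩ := hx'
  rw [mem_Ico] at ha hc
  have h1 := hinj c (by omega) a (by omega) hca
  subst h1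
  rcases lt_or_gt_of_ne hij with h | h
  · have : (i + 1) * m ≤ j * m := Nat.mul_le_mul_right m h
    omega
  · have : (j + 1) * m ≤ i * m := Nat.mul_le_mul_right m h
    omega

theorem sum_grp (b : α → ℝ) {j : ℕ} (hj : (j + 1) * m ≤ N) :
    ∑ z ∈ grp f m j, b z = ∑ i ∈ Ico (j * m) ((j + 1) * m), b (f i) := by
  rw [grp, Finset.sum_image]
  intro x hx y hy hxy
  rw [coe_Ico, Set.mem_Ico] at hx hy
  exact hinj x (by omega) y (by omega) hxy

end

theorem sum_groups (B : ℕ → ℝ) (m J : ℕ) :
    ∑ j ∈ range J, ∑ i ∈ Ico (j * m) ((j + 1) * m), B i = ∑ i ∈ range (J * m), B i := by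
  induction J with
  | zero => simp
  | succ J ih =>
    rw [Finset.sum_range_succ, ih, Finset.range_eq_Ico, Finset.range_eq_Ico,
      Finset.sum_Ico_consecutive B (Nat.zero_le _) (Nat.mul_le_mul_right m (Nat.le_succ J))]

/-- Disjoint groups in a set. -/
theorem exists_groups {α : Type} [DecidableEq α] [Nonempty α] (T : Finset α) {m d : ℕ} (hd : d * m ≤ T.card) :
    ∃ G : ℕ → Finset α, (∀ i < d, G i ⊆ T) ∧ (∀ i < d, (G i).card = m) ∧
      (∀ i < d, ∀ j < d, i ≠ j → Disjoint (G i) (G j)) := by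
  obtain ⟨f, h1, h2, -⟩ := exists_enum T (fun _ => 0)
  have hle : ∀ i < d, (i + 1) * m ≤ T.card := fun i hi => (Nat.mul_le_mul_right m hi).trans hd
  refine ⟨grp f m, ?_, fun i hi => card_grp h2 (hle i hi), fun i hi j hj hij => grp_disjoint h2 (hle i hi) (hle j hj) hij⟩
  intro i hi x hx
  rw [grp, mem_image] at hx
  obtain ⟨a, ha, rfl⟩ := hx
  rw [mem_Ico] at ha
  exact h1 a (lt_of_lt_of_le ha.2 (hle i hi))

/-- The choice of the groups of leaves. -/
theorem select {α : Type} [DecidableEq α] [Nonempty α] (T : Finset α) (b : α → ℝ) (hb : ∀ z ∈ T, 0 ≤ b z) {m K d : ℕ}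
    (hm : 0 < m) (hK : 0 < K) (hd : 0 < d → (K + d) * m ≤ T.card + m) {a c ε1 ε2 : ℝ} (ha : 0 ≤ a) (hc : 0 ≤ c)
    (h1 : a / K ≤ ε1) (h2 : a - c / m ≤ ε2) (h2' : 0 ≤ ε2) :
    ∃ G : ℕ → Finset α, (∀ i < d, G i ⊆ T) ∧ (∀ i < d, (G i).card = m) ∧
      (∀ i < d, ∀ j < d, i ≠ j → Disjoint (G i) (G j)) ∧
      ∀ w : ℕ → α, (∀ i < d, w i ∈ G i) →
        ∑ z ∈ T, b z + a * ∑ z ∈ (range d).biUnion G, b z - c * ∑ i ∈ range d, b (w i) ≤ (1 + ε1 + ε2) * ∑ z ∈ T, b z := by
  have hε1 : 0 ≤ ε1 := (div_nonneg ha (Nat.cast_nonneg K)).trans h1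
  have hS0 : 0 ≤ ∑ z ∈ T, b z := Finset.sum_nonneg hb
  rcases Nat.eq_zero_or_pos d with hd0 | hd0
  · subst hd0
    refine ⟨fun _ => ∅, fun i hi => absurd hi (by omega), fun i hi => absurd hi (by omega),
      fun i hi => absurd hi (by omega), fun w _ => ?_⟩
    simp only [range_zero, biUnion_empty, sum_empty, mul_zero, sub_zero, add_zero]
    nlinarith
  obtain ⟨f, e1, e2, e3⟩ := exists_enum T b
  obtain ⟨K', rfl⟩ : ∃ K', K = K' + 1 := ⟨K - 1, by omega⟩
  have hKd : (K' + d) * m ≤ T.card := by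
    have h := hd hd0
    have : (K' + 1 + d) * m = (K' + d) * m + m := by ring
    omega
  have himg : (range T.card).image f = T := by
    apply Finset.eq_of_subset_of_card_le
    · intro x hx
      rw [mem_image] at hx
      obtain ⟨i, hi, rfl⟩ := hx
      exact e1 i (mem_range.1 hi)
    · rw [Finset.card_image_of_injOn]
      · rw [card_range]
      · intro x hx y hy hxy
        rw [coe_range, Set.mem_Iio] at hx hy
        exact e2 x hx y hy hxy
  have hS : ∑ z ∈ T, b z = ∑ i ∈ range T.card, b (f i) := by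
    conv_lhs => rw [← himg]
    rw [Finset.sum_image]
    intro x hx y hy hxy
    rw [coe_range, Set.mem_Iio] at hx hy
    exact e2 x hx y hy hxy
  set s : ℕ → ℝ := fun j => ∑ i ∈ Ico (j * m) ((j + 1) * m), b (f i) with hs
  have hpart : ∀ J, J * m ≤ T.card → ∑ j ∈ range J, s j ≤ ∑ z ∈ T, b z := by
    intro J hJ
    rw [hS, hs, sum_groups (fun i => b (f i)) m J]
    exact Finset.sum_le_sum_of_subset_of_nonneg (Finset.range_subset_range.2 hJ)
      (fun i hi _ => hb _ (e1 i (mem_range.1 hi)))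
  have hs0 : ∀ j, (j + 1) * m ≤ T.card → 0 ≤ s j := fun j hj =>
    Finset.sum_nonneg fun i hi => hb _ (e1 i (lt_of_lt_of_le (mem_Ico.1 hi).2 hj))
  -- a light group
  obtain ⟨i0, hi0, hi0'⟩ : ∃ i0 ∈ range (K' + 1), s i0 ≤ (∑ z ∈ T, b z) / ((K' + 1 : ℕ) : ℝ) := by
    apply Finset.exists_le_of_sum_le (by simp)
    rw [Finset.sum_const, card_range, nsmul_eq_mul]
    have hK0 : ((K' + 1 : ℕ) : ℝ) ≠ 0 := by positivity
    rw [mul_div_cancel₀ _ hK0]
    apply hpart
    refine le_trans (Nat.mul_le_mul_right m ?_) hKd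
    omega
  rw [mem_range] at hi0
  have hle : ∀ i < d, (i0 + i + 1) * m ≤ T.card := fun i hi => le_trans (Nat.mul_le_mul_right m (by omega)) hKd
  refine ⟨fun i => grp f m (i0 + i), ?_, fun i hi => card_grp e2 (hle i hi),
    fun i hi j hj hij => grp_disjoint e2 (hle i hi) (hle j hj) (by omega), ?_⟩
  · intro i hi x hx
    simp only [grp, mem_image, mem_Ico] at hx
    obtain ⟨p, hp, rfl⟩ := hx
    exact e1 p (lt_of_lt_of_le hp.2 (hle i hi))
  · intro w hw
    have hU : ∑ z ∈ (range d).biUnion (fun i => grp f m (i0 + i)), b z = ∑ i ∈ range d, s (i0 + i) := by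
      rw [Finset.sum_biUnion]
      · refine Finset.sum_congr rfl fun i hi => ?_
        exact sum_grp e2 b (hle i (mem_range.1 hi))
      · intro i hi j hj hij
        rw [coe_range, Set.mem_Iio] at hi hj
        exact grp_disjoint e2 (hle i hi) (hle j hj) (by omega)
    obtain ⟨d', rfl⟩ : ∃ d', d = d' + 1 := ⟨d - 1, by omega⟩
    have hmR : (0 : ℝ) < m := by exact_mod_cast hm
    -- lower bound of the picked weights
    have hpick : ∀ i < d', s (i0 + (i + 1)) ≤ m * b (w i) := by
      intro i hi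
      have h3 := hw i (by omega)
      simp only [grp, mem_image, mem_Ico] at h3
      obtain ⟨p, hp, hp'⟩ := h3
      have h4 := hle (i + 1) (by omega)
      have h5 : ∀ i' ∈ Ico ((i0 + (i + 1)) * m) ((i0 + (i + 1) + 1) * m), b (f i') ≤ b (w i) := by
        intro i' hi'
        rw [mem_Ico] at hi'
        rw [← hp']
        refine e3 p ?_ i' ?_ ?_
        · exact lt_of_lt_of_le hp.2 (hle i (by omega))
        · exact lt_of_lt_of_le hi'.2 h4
        · have h6 : (i0 + i + 1) * m ≤ i' := hi'.1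
          omega
      have h6 := Finset.sum_le_card_nsmul _ _ _ h5
      rw [Nat.card_Ico, nsmul_eq_mul] at h6
      have h7 : (i0 + (i + 1) + 1) * m - (i0 + (i + 1)) * m = m := by
        rw [Nat.add_mul (i0 + (i + 1)) 1 m, one_mul]
        omega
      rw [h7] at h6
      exact h6
    set R : ℝ := ∑ i ∈ range d', s (i0 + (i + 1)) with hR
    have hR0 : 0 ≤ R := Finset.sum_nonneg fun i hi => hs0 _ (hle (i + 1) (by rw [mem_range] at hi; omega))
    have hRS : R ≤ ∑ z ∈ T, b z := by
      have h3 := hpart (i0 + (d' + 1)) (le_trans (Nat.mul_le_mul_right m (by omega)) hKd)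
      rw [Finset.sum_range_add] at h3
      rw [Finset.sum_range_succ'] at h3
      have h4 : 0 ≤ ∑ j ∈ range i0, s j := Finset.sum_nonneg fun j hj => hs0 _ (by
        rw [mem_range] at hj
        exact le_trans (Nat.mul_le_mul_right m (by omega)) hKd)
      have h5 := hs0 (i0 + 0) (hle 0 (by omega))
      linarith
    have hsum : ∑ i ∈ range (d' + 1), s (i0 + i) = R + s i0 := by
      rw [Finset.sum_range_succ']
      rfl
    have hsw : R / m ≤ ∑ i ∈ range (d' + 1), b (w i) := by
      rw [Finset.sum_range_succ, div_le_iff₀ hmR, hR]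
      have h3 : ∑ i ∈ range d', s (i0 + (i + 1)) ≤ ∑ i ∈ range d', m * b (w i) :=
        Finset.sum_le_sum fun i hi => hpick i (mem_range.1 hi)
      rw [← Finset.mul_sum] at h3
      have h4 : 0 ≤ b (w d') := by
        have h5 := hw d' (by omega)
        simp only [grp, mem_image, mem_Ico] at h5
        obtain ⟨p, hp, hp'⟩ := h5
        rw [← hp']
        exact hb _ (e1 p (lt_of_lt_of_le hp.2 (hle d' (by omega))))
      nlinarith
    rw [hU, hsum]
    set S := ∑ z ∈ T, b z with hSd
    have h3 : a * s i0 ≤ ε1 * S := by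
      calc a * s i0 ≤ a * (S / ((K' + 1 : ℕ) : ℝ)) := mul_le_mul_of_nonneg_left hi0' ha
        _ = a / ((K' + 1 : ℕ) : ℝ) * S := by ring
        _ ≤ ε1 * S := mul_le_mul_of_nonneg_right h1 hS0
    have h4 : a * R - c * (R / m) ≤ ε2 * S := by
      calc a * R - c * (R / m) = (a - c / m) * R := by ring
        _ ≤ ε2 * R := mul_le_mul_of_nonneg_right h2 hR0
        _ ≤ ε2 * S := mul_le_mul_of_nonneg_left hRS h2'
    have h5 : c * (R / m) ≤ c * ∑ i ∈ range (d' + 1), b (w i) := mul_le_mul_of_nonneg_left hsw hc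
    nlinarith

end Pool.Agent.Helper68.WC
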