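import Pool.Agent.Helper68.WC.Hall
import Pool.Agent.Helper68.WC.Large

/-!
# The threshold bias for large `k` (MP_f3ca85_co)
-/

set_option autoImplicit false

namespace Pool.Agent.Helper68.WC

open Finset

variable {n : ℕ}

/-- An edge has at most two ends in `X`. -/
theorem card_ends_le (X : Finset (Fin n)) (e : Sym2 (Fin n)) : (X.filter (· ∈ e)).card ≤ 2 := by
  induction e with
  | _ x y =>
    calc (X.filter (· ∈ s(x, y))).card ≤ ({x, y} : Finset (Fin n)).card := by
          apply Finset.card_le_card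
          intro z hz
          have := (mem_filter.1 hz).2
          rw [Sym2.mem_iff] at this
          rw [mem_insert, mem_singleton]
          exact this
      _ ≤ 2 := Finset.card_le_two

theorem sum_dg_le (F : Finset (Sym2 (Fin n))) (X : Finset (Fin n)) :
    ∑ v ∈ X, dg F v ≤ 2 * (F.filter fun e => ∃ v ∈ X, v ∈ e).card := by
  have h1 : ∑ v ∈ X, dg F v = ∑ e ∈ F, (X.filter (· ∈ e)).card := by
    simp only [dg, Finset.card_filter]
    rw [Finset.sum_comm]
  have h2 : ∑ e ∈ F, (X.filter (· ∈ e)).card = ∑ e ∈ F.filter (fun e => ∃ v ∈ X, v ∈ e), (X.filter (· ∈ e)).card := by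
    symm
    refine Finset.sum_filter_of_ne fun e _ he => ?_
    obtain ⟨v, hv⟩ := Finset.card_ne_zero.1 he
    exact ⟨v, (mem_filter.1 hv).1, (mem_filter.1 hv).2⟩
  rw [h1, h2]
  calc ∑ e ∈ F.filter (fun e => ∃ v ∈ X, v ∈ e), (X.filter (· ∈ e)).card ≤
      ∑ _e ∈ F.filter (fun e => ∃ v ∈ X, v ∈ e), 2 := Finset.sum_le_sum fun e _ => card_ends_le X e
    _ = _ := by rw [Finset.sum_const, smul_eq_mul, mul_comm]

/-- The simple strategy: every vertex gets half of its edges. -/
theorem waiter_small {q k : ℕ} (h : 2 * k * (q + 1) < n) : WaiterWins n q k := by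
  have h1 : WWin (q + 1 - 1) (MinDeg k) ∅ (edges n) := by
    refine win_hall (Nat.succ_pos q) (Finset.disjoint_empty_left _) fun X _ => ?_
    have h2 := sum_dg_le (edges n) X
    rw [Finset.sum_congr rfl fun v _ => dg_edges v, Finset.sum_const, smul_eq_mul] at h2
    have h3 : ∑ v ∈ X, (q + 1) * (k - dg (∅ : Finset (Sym2 (Fin n))) v) = X.card * ((q + 1) * k) := by
      rw [Finset.sum_congr rfl fun v _ => by rw [show dg (∅ : Finset (Sym2 (Fin n))) v = 0 by simp [dg], Nat.sub_zero],
        Finset.sum_const, smul_eq_mul]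
    have h4 : 2 * k * (q + 1) ≤ n - 1 := by omega
    have h5 : X.card * (2 * k * (q + 1)) ≤ X.card * (n - 1) := Nat.mul_le_mul_left _ h4
    have h6 : X.card * (2 * k * (q + 1)) = 2 * (X.card * ((q + 1) * k)) := by ring
    rw [h3]
    omega
  exact h1

/-- Waiter's strategies together. -/
theorem waiter_wins {q k r : ℕ} (hk : 0 < k) (hr : 0 < r) (hkr : k ≤ r ^ 2)
    (h : ((q : ℝ) + 1) * (k + r * (9 + Real.log (2 * k)) + 2) ≤ n - 1) : WaiterWins n q k := by
  by_cases hn : n ≤ 2 * k * (q + 1)
  · exact waiter_large hk hr hkr hn h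
  · exact waiter_small (by omega)

/-- Client's final set may have at most `|F| / (q + 1) + 1` new elements. -/
theorem exists_final {E : Type} [DecidableEq E] {q : ℕ} {P : Finset E → Prop} {C F : Finset E} (h : WWin q P C F) :
    ∃ D, P D ∧ (q + 1) * D.card ≤ (q + 1) * C.card + F.card + q := by
  induction h with
  | claimed C hC => exact ⟨C, hC, by omega⟩
  | last C F hne hlt hF =>
    obtain ⟨e, he⟩ := hne
    refine ⟨insert e C, hF e he, ?_⟩
    have h1 := Finset.card_insert_le e C
    have h2 : 1 ≤ F.card := Finset.card_pos.2 ⟨e, he⟩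
    calc (q + 1) * (insert e C).card ≤ (q + 1) * (C.card + 1) := Nat.mul_le_mul_left _ h1
      _ = (q + 1) * C.card + (q + 1) := by ring
      _ ≤ _ := by omega
  | round C F O hO hOc _ ih =>
    obtain ⟨e, he⟩ : O.Nonempty := Finset.card_pos.1 (by omega)
    obtain ⟨D, hD, hD'⟩ := ih e he
    refine ⟨D, hD, ?_⟩
    rw [Finset.card_sdiff_of_subset hO] at hD'
    have h1 := Finset.card_insert_le e C
    have h2 := Finset.card_le_card hO
    have h3 : (q + 1) * (insert e C).card ≤ (q + 1) * C.card + (q + 1) := by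
      calc (q + 1) * (insert e C).card ≤ (q + 1) * (C.card + 1) := Nat.mul_le_mul_left _ h1
        _ = (q + 1) * C.card + (q + 1) := by ring
    omega

theorem card_edges : 2 * (edges n).card = n * (n - 1) := by
  have h1 := sum_dg_le (edges n) (univ : Finset (Fin n))
  have h2 : ∑ v : Fin n, dg (edges n) v = ∑ e ∈ edges n, ((univ : Finset (Fin n)).filter (· ∈ e)).card := by
    simp only [dg, Finset.card_filter]
    rw [Finset.sum_comm]
  have h3 : ∀ e ∈ edges n, ((univ : Finset (Fin n)).filter (· ∈ e)).card = 2 := by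
    intro e he
    induction e with
    | _ x y =>
      rw [edges, mem_filter, Sym2.mk_isDiag_iff] at he
      have : (univ : Finset (Fin n)).filter (· ∈ s(x, y)) = {x, y} := by
        ext z
        rw [mem_filter, Sym2.mem_iff, mem_insert, mem_singleton]
        simp
      rw [this, Finset.card_pair he.2]
  rw [Finset.sum_congr rfl h3, Finset.sum_const, smul_eq_mul, Finset.sum_congr rfl fun v _ => dg_edges v, Finset.sum_const,
    Finset.card_univ, Fintype.card_fin, smul_eq_mul] at h2
  omega

/-- The trivial upper bound: the graph of Client has at least `k n / 2` edges. -/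
theorem upper_trivial {q k : ℕ} (h : WaiterWins n q k) : (q + 1) * (k * n) ≤ n * (n - 1) + 2 * q := by
  obtain ⟨D, hD, hD'⟩ := exists_final h
  rw [Finset.card_empty, mul_zero, zero_add] at hD'
  have h1 := sum_dg_le D (univ : Finset (Fin n))
  have h2 : n * k ≤ ∑ v : Fin n, dg D v := by
    calc n * k = ∑ _v : Fin n, k := by rw [Finset.sum_const, Finset.card_univ, Fintype.card_fin, smul_eq_mul]
      _ ≤ _ := Finset.sum_le_sum fun v _ => hD v
  have h3 : (D.filter fun e => ∃ v ∈ (univ : Finset (Fin n)), v ∈ e).card ≤ D.card := Finset.card_filter_le _ _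
  have h4 := card_edges (n := n)
  have h5 : n * k ≤ 2 * D.card := by omega
  calc (q + 1) * (k * n) = (q + 1) * (n * k) := by ring
    _ ≤ (q + 1) * (2 * D.card) := Nat.mul_le_mul_left _ h5
    _ = 2 * ((q + 1) * D.card) := by ring
    _ ≤ 2 * ((edges n).card + q) := Nat.mul_le_mul_left _ hD'
    _ = _ := by rw [mul_add, h4]

end Pool.Agent.Helper68.WC
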