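import Pool.Agent.Helper68.WC.Game
import Pool.Agent.Helper68.WC.Sel

/-!
# One visit (MP_f3ca85_co)

Waiter visits an active vertex `v` (Client degree less than `k`) with the least slack and offers stars with the centre `v`
until the degree of `v` is `k`: first stars whose leaves are inactive, then stars whose leaves are consecutive groups of active
vertices, in the order of the slack. The slack of `z` is the number of free edges at `z` minus `m` times the missing degree.
-/

set_option autoImplicit false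

namespace Pool.Agent.Helper68.WC

open Finset

variable {n : ℕ}

theorem dg_union {C D : Finset (Sym2 (Fin n))} (h : Disjoint C D) (z : Fin n) : dg (C ∪ D) z = dg C z + dg D z := by
  rw [dg, Finset.filter_union, Finset.card_union_of_disjoint]
  · rfl
  · exact Finset.disjoint_filter_filter h

theorem dg_sdiff {F D : Finset (Sym2 (Fin n))} (h : D ⊆ F) (z : Fin n) : dg (F \ D) z + dg D z = dg F z := by
  rw [← dg_union Finset.sdiff_disjoint, Finset.sdiff_union_of_subset h]

theorem dg_star_self (v : Fin n) (S : Finset (Fin n)) : dg (star v S) v = S.card := by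
  rw [dg, Finset.filter_true_of_mem, card_star]
  intro e he
  obtain ⟨z, -, rfl⟩ := mem_star.1 he
  exact Sym2.mem_mk_left v z

theorem dg_star {v z : Fin n} (hz : z ≠ v) (S : Finset (Fin n)) : dg (star v S) z = if z ∈ S then 1 else 0 := by
  rw [dg]
  split_ifs with h
  · rw [Finset.card_eq_one]
    refine ⟨s(v, z), ?_⟩
    ext e
    rw [mem_filter, mem_singleton]
    constructor
    · rintro ⟨he, hze⟩
      obtain ⟨x, -, rfl⟩ := mem_star.1 he
      rcases Sym2.mem_iff.1 hze with h1 | h1
      · exact absurd h1 hz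
      · rw [h1]
    · rintro rfl
      exact ⟨mem_star'.2 h, Sym2.mem_mk_right v z⟩
  · rw [Finset.card_eq_zero, Finset.filter_eq_empty_iff]
    intro e he hze
    obtain ⟨x, hx, rfl⟩ := mem_star.1 he
    rcases Sym2.mem_iff.1 hze with h1 | h1
    · exact absurd h1 hz
    · exact h (h1 ▸ hx)

/-- The active vertices. -/
def act (k : ℕ) (C : Finset (Sym2 (Fin n))) : Finset (Fin n) := univ.filter fun z => dg C z < k

theorem mem_act {k : ℕ} {C : Finset (Sym2 (Fin n))} {z : Fin n} : z ∈ act k C ↔ dg C z < k := by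
  simp [act]

/-- The slack. -/
def sg (m k : ℕ) (C F : Finset (Sym2 (Fin n))) (z : Fin n) : ℤ := (dg F z : ℤ) - m * ((k : ℤ) - dg C z)

/-- The invariants of the strategy. -/
structure Inv (m k : ℕ) (w : ℤ) (θ B : ℝ) (C F : Finset (Sym2 (Fin n))) : Prop where
  dis : Disjoint C F
  nd : ∀ e ∈ F, ¬ e.IsDiag
  fr : ∀ x ∈ act k C, ∀ y ∈ act k C, x ≠ y → s(x, y) ∈ F
  wal : ∀ t : ℕ, t ≤ m → ((act k C).filter fun z => sg m k C F z ≤ w + t).card ≤ t
  pot : ∑ z ∈ act k C, Real.exp (-θ * sg m k C F z) ≤ B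

/-- The free neighbours of `v`. -/
def nb (F : Finset (Sym2 (Fin n))) (v : Fin n) : Finset (Fin n) := univ.filter fun z => s(v, z) ∈ F

theorem mem_nb {F : Finset (Sym2 (Fin n))} {v z : Fin n} : z ∈ nb F v ↔ s(v, z) ∈ F := by
  simp [nb]

theorem dg_eq_nb {F : Finset (Sym2 (Fin n))} (v : Fin n) : dg F v = (nb F v).card := by
  rw [← card_star v (nb F v), dg]
  congr 1
  ext e
  rw [mem_filter, mem_star]
  constructor
  · rintro ⟨he, hv⟩
    obtain ⟨z, rfl⟩ := hv
    exact ⟨z, mem_nb.2 he, rfl⟩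
  · rintro ⟨z, hz, rfl⟩
    exact ⟨mem_nb.1 hz, Sym2.mem_mk_left v z⟩

section Effect

variable {m k : ℕ} {C F : Finset (Sym2 (Fin n))} {v : Fin n} {U W : Finset (Fin n)}

/-- The change of the slack by a visit. -/
theorem sg_visit (hCF : Disjoint C F) (hU : star v U ⊆ F) (hW : W ⊆ U) {z : Fin n} (hz : z ≠ v) :
    sg m k (C ∪ star v W) (F \ star v U) z = sg m k C F z - (if z ∈ U then 1 else 0) + (if z ∈ W then (m : ℤ) else 0) := by
  have hWF : star v W ⊆ F := fun e he => hU (by
    obtain ⟨x, hx, rfl⟩ := mem_star.1 he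
    exact mem_star'.2 (hW hx))
  have h1 : dg (C ∪ star v W) z = dg C z + if z ∈ W then 1 else 0 := by
    rw [dg_union (Finset.disjoint_of_subset_right hWF hCF), dg_star hz]
  have h2 : dg (F \ star v U) z + (if z ∈ U then 1 else 0) = dg F z := by
    rw [← dg_star hz U, dg_sdiff hU]
  rw [sg, sg, h1, ← h2]
  split_ifs <;> push_cast <;> ring

theorem act_visit (hCF : Disjoint C F) (hU : star v U ⊆ F) (hW : W ⊆ U) (hv : k ≤ dg C v + W.card) :
    act k (C ∪ star v W) ⊆ (act k C).erase v := by
  have hWF : star v W ⊆ F := fun e he => hU (by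
    obtain ⟨x, hx, rfl⟩ := mem_star.1 he
    exact mem_star'.2 (hW hx))
  intro z hz
  rw [mem_act] at hz
  rw [mem_erase, mem_act]
  refine ⟨?_, lt_of_le_of_lt (dg_mono Finset.subset_union_left z) hz⟩
  rintro rfl
  rw [dg_union (Finset.disjoint_of_subset_right hWF hCF), dg_star_self] at hz
  omega

/-- The change of the potential by a visit. -/
theorem pot_visit (hCF : Disjoint C F) (hU : star v U ⊆ F) (hW : W ⊆ U) (θ : ℝ) (T : Finset (Fin n)) (hT : v ∉ T) :
    ∑ z ∈ T, Real.exp (-θ * sg m k (C ∪ star v W) (F \ star v U) z) =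
      ∑ z ∈ T, Real.exp (-θ * sg m k C F z) + (Real.exp θ - 1) * ∑ z ∈ T.filter (· ∈ U), Real.exp (-θ * sg m k C F z) -
        (Real.exp θ - Real.exp (θ - θ * m)) * ∑ z ∈ T.filter (· ∈ W), Real.exp (-θ * sg m k C F z) := by
  rw [Finset.sum_filter, Finset.sum_filter, Finset.mul_sum, Finset.mul_sum, ← Finset.sum_add_distrib,
    ← Finset.sum_sub_distrib]
  refine Finset.sum_congr rfl fun z hz => ?_
  have hzv : z ≠ v := fun h => hT (h ▸ hz)
  rw [sg_visit hCF hU hW hzv]
  by_cases h1 : z ∈ W
  · have h2 : z ∈ U := hW h1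
    rw [if_pos h1, if_pos h2, if_pos h1, if_pos h2]
    push_cast
    have e1 : -θ * ((sg m k C F z : ℝ) - 1 + m) = -θ * (sg m k C F z : ℝ) + (θ - θ * m) := by ring
    rw [e1, Real.exp_add]
    ring
  · by_cases h2 : z ∈ U
    · rw [if_neg h1, if_pos h2, if_neg h1, if_pos h2]
      push_cast
      have e1 : -θ * ((sg m k C F z : ℝ) - 1 + 0) = -θ * (sg m k C F z : ℝ) + θ := by ring
      rw [e1, Real.exp_add]
      ring
    · rw [if_neg h1, if_neg h2, if_neg h1, if_neg h2]
      push_cast
      have e1 : -θ * ((sg m k C F z : ℝ) - 0 + 0) = -θ * (sg m k C F z : ℝ) := by ring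
      rw [e1]
      ring

end Effect

end Pool.Agent.Helper68.WC
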